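import Pool.Agent.H482R3.SOS.Defs

set_option autoImplicit false

namespace Pool.Agent.H482R3.SOS

open MvPolynomial

variable {V E : Type} [Fintype E] [DecidableEq E]

omit [Fintype E] [DecidableEq E] in
theorem ite_inst {p : Prop} {α : Type*} (x y : α) (i1 i2 : Decidable p) :
    @ite α p i1 x y = @ite α p i2 x y := by
  congr

/-- indicator exponent vector -/
noncomputable def ind (A : Finset E) : E →₀ ℕ := ∑ g ∈ A, Finsupp.single g 1

omit [Fintype E] in
theorem ind_apply (A : Finset E) (x : E) : ind A x = if x ∈ A then 1 else 0 := by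
  unfold ind
  rw [Finsupp.finsetSum_apply]
  simp [Finsupp.single_apply]

omit [Fintype E] in
theorem prod_eq (A : Finset E) : (∏ g ∈ A, X g : MvPolynomial E ℤ) = monomial (ind A) 1 := by
  unfold ind
  rw [monomial_sum_one]
  rfl

omit [Fintype E] in
theorem pderiv_prod_notMem (e : E) (A : Finset E) (h : e ∉ A) :
    pderiv e (∏ g ∈ A, X g : MvPolynomial E ℤ) = 0 := by
  induction A using Finset.induction_on with
  | empty => simp
  | insert a s ha ih =>
    rw [Finset.prod_insert ha, Derivation.leibniz]
    have h1 : a ≠ e := fun h' => h (by rw [h']; exact Finset.mem_insert_self _ _)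
    have h2 : e ∉ s := fun h' => h (Finset.mem_insert_of_mem h')
    rw [ih h2, pderiv_X_of_ne h1]
    simp

omit [Fintype E] in
theorem pderiv_prod_mem (e : E) (A : Finset E) (h : e ∈ A) :
    pderiv e (∏ g ∈ A, X g : MvPolynomial E ℤ) = ∏ g ∈ A.erase e, X g := by
  rw [← Finset.mul_prod_erase A _ h, Derivation.leibniz,
    pderiv_prod_notMem e _ (Finset.notMem_erase e A), pderiv_X_self]
  simp

open Classical in
/-- generating polynomial of a family of sets -/
noncomputable def pl (P : Finset E → Prop) : MvPolynomial E ℤ :=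
  ∑ A : Finset E, if P A then ∏ g ∈ A, X g else 0

theorem pderiv_pl (e : E) (P : Finset E → Prop) :
    pderiv e (pl P) = pl fun A => e ∉ A ∧ P (insert e A) := by
  classical
  unfold pl
  rw [map_sum]
  have h1 : ∀ A : Finset E, pderiv e (if P A then ∏ g ∈ A, X g else (0 : MvPolynomial E ℤ)) =
      if (P A ∧ e ∈ A) then ∏ g ∈ A.erase e, X g else 0 := by
    intro A
    by_cases hP : P A
    · by_cases he : e ∈ A
      · simp only [hP, he, and_self, if_true]
        exact pderiv_prod_mem e A he
      · simp only [hP, he, and_false, if_true, if_false]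
        exact pderiv_prod_notMem e A he
    · simp [hP]
  simp_rw [h1]
  rw [← Finset.sum_filter]
  trans (∑ A ∈ Finset.univ.filter (fun A : Finset E => e ∉ A ∧ P (insert e A)),
    (∏ g ∈ A, X g : MvPolynomial E ℤ))
  swap
  · rw [Finset.sum_filter]
    exact Finset.sum_congr rfl fun A _ => ite_inst _ _ _ _
  refine Finset.sum_nbij' (fun A => A.erase e) (fun A => insert e A) ?_ ?_ ?_ ?_ ?_
  · intro A hA
    simp only [Finset.mem_filter, Finset.mem_univ, true_and] at hA ⊢
    rw [Finset.insert_erase hA.2]
    exact ⟨Finset.notMem_erase _ _, hA.1⟩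
  · intro A hA
    simp only [Finset.mem_filter, Finset.mem_univ, true_and] at hA ⊢
    exact ⟨hA.2, Finset.mem_insert_self _ _⟩
  · intro A hA
    simp only [Finset.mem_filter, Finset.mem_univ, true_and] at hA
    exact Finset.insert_erase hA.2
  · intro A hA
    simp only [Finset.mem_filter, Finset.mem_univ, true_and] at hA
    exact Finset.erase_insert hA.1
  · intro A hA
    rfl

/-- the exponent vector with value 2 on `D` and 1 on `U` -/
noncomputable def mu (D U : Finset E) : E →₀ ℕ := ind D + ind D + ind U

theorem pairs (D U : Finset E) (hDU : Disjoint D U) (F : Finset E → Finset E → ℤ) :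
    (∑ A : Finset E, ∑ B : Finset E, if ind A + ind B = mu D U then F A B else 0) =
      ∑ X ∈ U.powerset, F (D ∪ X) (D ∪ (U \ X)) := by
  classical
  rw [← Finset.sum_product', ← Finset.sum_filter]
  have hDU' : ∀ x, x ∈ D → x ∉ U := fun x hx => Finset.disjoint_left.1 hDU hx
  have key : ∀ A B : Finset E, ind A + ind B = mu D U → ∀ x,
      (if x ∈ A then 1 else 0) + (if x ∈ B then 1 else 0) =
      (if x ∈ D then 1 else 0) + (if x ∈ D then 1 else 0) + (if x ∈ U then 1 else 0) := by
    intro A B h x
    have h2 := DFunLike.congr_fun h x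
    simp only [mu, Finsupp.add_apply, ind_apply] at h2
    exact h2
  refine Finset.sum_nbij' (fun p => p.1 \ D) (fun X => (D ∪ X, D ∪ (U \ X))) ?_ ?_ ?_ ?_ ?_
  · rintro ⟨A, B⟩ h
    simp only [Finset.mem_filter, Finset.mem_product, Finset.mem_univ, true_and] at h
    simp only [Finset.mem_powerset]
    intro x hx
    rw [Finset.mem_sdiff] at hx
    have h2 := key A B h x
    by_contra hU
    simp only [hx.1, hx.2, hU, if_true, if_false] at h2
    omega
  · intro X hX
    rw [Finset.mem_powerset] at hX
    simp only [Finset.mem_filter, Finset.mem_product, Finset.mem_univ, true_and]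
    ext x
    simp only [mu, Finsupp.add_apply, ind_apply, Finset.mem_union, Finset.mem_sdiff]
    by_cases h1 : x ∈ D
    · have h2 := hDU' x h1
      have h3 : x ∉ X := fun h => h2 (hX h)
      simp [h1, h2]
    · by_cases h2 : x ∈ X
      · have h3 := hX h2
        simp [h1, h2, h3]
      · simp [h1, h2]
  · rintro ⟨A, B⟩ h
    simp only [Finset.mem_filter, Finset.mem_product, Finset.mem_univ, true_and] at h
    have hk := key A B h
    refine Prod.ext ?_ ?_
    · ext x
      simp only [Finset.mem_union, Finset.mem_sdiff]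
      have h2 := hk x
      by_cases h3 : x ∈ D
      · have h4 := hDU' x h3
        have h5 : x ∈ A := by
          by_contra h5
          simp only [h3, h4, h5, if_true, if_false] at h2
          split_ifs at h2 <;> omega
        simp [h3, h5]
      · simp [h3]
    · ext x
      simp only [Finset.mem_union, Finset.mem_sdiff]
      have h2 := hk x
      by_cases h3 : x ∈ D <;> by_cases h4 : x ∈ U <;> by_cases h5 : x ∈ A <;> by_cases h6 : x ∈ B <;>
        simp only [h3, h4, h5, h6, if_true, if_false] at h2 ⊢ <;> first
        | omega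
        | simp
        | exact absurd h4 (hDU' x h3)
  · intro X hX
    rw [Finset.mem_powerset] at hX
    ext x
    simp only [Finset.mem_union, Finset.mem_sdiff]
    by_cases h3 : x ∈ D
    · have : x ∉ X := fun h => hDU' x h3 (hX h)
      simp [h3, this]
    · simp [h3]
  · rintro ⟨A, B⟩ h
    simp only [Finset.mem_filter, Finset.mem_product, Finset.mem_univ, true_and] at h
    have hk := key A B h
    congr 1
    · ext x
      simp only [Finset.mem_union, Finset.mem_sdiff]
      have h2 := hk x
      by_cases h3 : x ∈ D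
      · have h4 := hDU' x h3
        have h5 : x ∈ A := by
          by_contra h5
          simp only [h3, h4, h5, if_true, if_false] at h2
          split_ifs at h2 <;> omega
        simp [h3, h5]
      · simp [h3]
    · ext x
      simp only [Finset.mem_union, Finset.mem_sdiff]
      have h2 := hk x
      by_cases h3 : x ∈ D <;> by_cases h4 : x ∈ U <;> by_cases h5 : x ∈ A <;> by_cases h6 : x ∈ B <;>
        simp only [h3, h4, h5, h6, if_true, if_false] at h2 ⊢ <;> first
        | omega
        | simp
        | exact absurd h4 (hDU' x h3)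

open Classical in
theorem coeff_pl_mul (D U : Finset E) (hDU : Disjoint D U) (P Q : Finset E → Prop) :
    coeff (mu D U) (pl P * pl Q) =
      ∑ X ∈ U.powerset, if (P (D ∪ X) ∧ Q (D ∪ (U \ X))) then 1 else 0 := by
  rw [← pairs D U hDU fun A B => if (P A ∧ Q B) then 1 else 0]
  unfold pl
  rw [Finset.sum_mul_sum, coeff_sum]
  refine Finset.sum_congr rfl fun A _ => ?_
  rw [coeff_sum]
  refine Finset.sum_congr rfl fun B _ => ?_
  by_cases hP : P A <;> by_cases hQ : Q B
  · simp only [hP, hQ, and_self, if_true]
    rw [prod_eq, prod_eq, monomial_mul, coeff_monomial]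
    simp
  · simp [hP, hQ]
  · simp [hP, hQ]
  · simp [hP, hQ]

theorem coeff_sq (D U S : Finset E) (hDU : Disjoint D U) (h : Finset E → ℤ)
    (hS : ∀ A, h A ≠ 0 → S ⊆ A) :
    coeff (mu D U) ((∏ g ∈ S, X g) * (∑ A : Finset E, C (h A) * ∏ g ∈ A \ S, X g) ^ 2) =
      if S ⊆ U then ∑ X ∈ (U \ S).powerset, h (S ∪ D ∪ X) * h (S ∪ D ∪ ((U \ S) \ X)) else 0 := by
  classical
  have hDU' : ∀ x, x ∈ D → x ∉ U := fun x hx => Finset.disjoint_left.1 hDU hx
  have h1 : coeff (mu D U) ((∏ g ∈ S, X g) * (∑ A : Finset E, C (h A) * ∏ g ∈ A \ S, X g) ^ 2) =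
      ∑ A : Finset E, ∑ B : Finset E,
        if ind S + (ind (A \ S) + ind (B \ S)) = mu D U then h A * h B else 0 := by
    rw [sq, Finset.sum_mul_sum, Finset.mul_sum, coeff_sum]
    refine Finset.sum_congr rfl fun A _ => ?_
    rw [Finset.mul_sum, coeff_sum]
    refine Finset.sum_congr rfl fun B _ => ?_
    rw [prod_eq, prod_eq, prod_eq, C_mul_monomial, C_mul_monomial, monomial_mul, monomial_mul,
      coeff_monomial]
    simp
  rw [h1]
  by_cases hSU : S ⊆ U
  · rw [if_pos hSU]
    have hd : Disjoint (S ∪ D) (U \ S) := by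
      rw [Finset.disjoint_left]
      intro x hx
      simp only [Finset.mem_union, Finset.mem_sdiff] at hx ⊢
      rcases hx with hx | hx
      · tauto
      · have := hDU' x hx
        tauto
    rw [← pairs (S ∪ D) (U \ S) hd fun A B => h A * h B]
    refine Finset.sum_congr rfl fun A _ => ?_
    refine Finset.sum_congr rfl fun B _ => ?_
    by_cases hA : h A = 0
    · simp [hA]
    by_cases hB : h B = 0
    · simp [hB]
    have hSA := hS A hA
    have hSB := hS B hB
    have : (ind S + (ind (A \ S) + ind (B \ S)) = mu D U) ↔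
        (ind A + ind B = mu (S ∪ D) (U \ S)) := by
      constructor
      · intro h2
        ext x
        have h3 := DFunLike.congr_fun h2 x
        simp only [mu, Finsupp.add_apply, ind_apply, Finset.mem_union, Finset.mem_sdiff] at h3 ⊢
        by_cases hx : x ∈ S
        · have h4 := hSA hx
          have h5 := hSB hx
          simp [hx, h4, h5]
        · simp only [hx, not_false_eq_true, and_true, false_or, if_false] at h3 ⊢
          omega
      · intro h2
        ext x
        have h3 := DFunLike.congr_fun h2 x
        simp only [mu, Finsupp.add_apply, ind_apply, Finset.mem_union, Finset.mem_sdiff] at h3 ⊢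
        by_cases hx : x ∈ S
        · have h4 := hSU hx
          have h5 : x ∉ D := fun h => hDU' x h h4
          simp [hx, h4, h5]
        · simp only [hx, not_false_eq_true, and_true, false_or, if_false] at h3 ⊢
          omega
    simp only [this]
  · rw [if_neg hSU]
    obtain ⟨x, hxS, hxU⟩ := Finset.not_subset.1 hSU
    refine Finset.sum_eq_zero fun A _ => Finset.sum_eq_zero fun B _ => ?_
    rw [if_neg]
    intro h2
    have h3 := DFunLike.congr_fun h2 x
    simp only [mu, Finsupp.add_apply, ind_apply, Finset.mem_sdiff, hxS, hxU, not_true_eq_false,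
      and_false, if_true, if_false] at h3
    split_ifs at h3 <;> omega

open Classical in
/-- The coefficients of the SOS identity. -/
theorem sos_coeff {lit : Bool} {ends : E → Sym2 V} {e f : E} (hsos : IsSOS lit ends e f) :
    ∃ c : Finset E → Finset E → ℤ, (∀ S Z, c S Z = 1 ∨ c S Z = -1) ∧
      ∀ D U : Finset E, Disjoint D U →
      (∑ X ∈ U.powerset,
        ((if (e ∉ D ∪ X ∧ IsForest ends (insert e (D ∪ X))) ∧
            (f ∉ D ∪ (U \ X) ∧ IsForest ends (insert f (D ∪ (U \ X)))) then (1 : ℤ) else 0) -
        (if IsForest ends (D ∪ X) ∧ (e ∉ D ∪ (U \ X) ∧ f ∉ insert e (D ∪ (U \ X)) ∧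
            IsForest ends (insert f (insert e (D ∪ (U \ X))))) then (1 : ℤ) else 0))) =
      ∑ S ∈ U.powerset, if InS ends e f S then
        ∑ X ∈ (U \ S).powerset,
          (∑ Z, if InA lit ends e f S (S ∪ D ∪ X) Z then c S Z else 0) *
          (∑ Z, if InA lit ends e f S (S ∪ D ∪ ((U \ S) \ X)) Z then c S Z else 0) else 0 := by
  obtain ⟨c, hc, hid⟩ := hsos
  refine ⟨c, hc, fun D U hDU => ?_⟩
  have h1 := congrArg (coeff (mu D U)) hid
  have hL : rayleigh ends e f = pl (fun A => e ∉ A ∧ IsForest ends (insert e A)) *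
      pl (fun A => f ∉ A ∧ IsForest ends (insert f A)) -
      pl (IsForest ends) * pl (fun A => e ∉ A ∧ f ∉ insert e A ∧
        IsForest ends (insert f (insert e A))) := by
    have h0 : forestPoly ends = pl (IsForest ends) := rfl
    unfold rayleigh
    rw [h0, pderiv_pl, pderiv_pl, pderiv_pl]
  rw [hL, coeff_sub, coeff_pl_mul D U hDU, coeff_pl_mul D U hDU, ← Finset.sum_sub_distrib] at h1
  rw [coeff_sum] at h1
  refine (Finset.sum_congr rfl fun X _ => ?_).trans (h1.trans ?_)
  · exact congrArg₂ (· - ·) (ite_inst _ _ _ _) (ite_inst _ _ _ _)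
  have h2 : ∀ S : Finset E, coeff (mu D U) (if InS ends e f S then
      (∏ g ∈ S, X g) * (∑ A : Finset E, ∑ Z : Finset E,
        if InA lit ends e f S A Z then C (c S Z) * ∏ g ∈ A \ S, X g else 0) ^ 2 else 0) =
      if S ⊆ U then (if InS ends e f S then
        ∑ X ∈ (U \ S).powerset,
          (∑ Z, if InA lit ends e f S (S ∪ D ∪ X) Z then c S Z else 0) *
          (∑ Z, if InA lit ends e f S (S ∪ D ∪ ((U \ S) \ X)) Z then c S Z else 0) else 0)
        else 0 := by
    intro S
    by_cases hS : InS ends e f S
    · rw [if_pos hS, if_pos hS]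
      have h3 : (∑ A : Finset E, ∑ Z : Finset E,
          if InA lit ends e f S A Z then C (c S Z) * ∏ g ∈ A \ S, X g else (0 : MvPolynomial E ℤ)) =
          ∑ A : Finset E, C (∑ Z, if InA lit ends e f S A Z then c S Z else 0) *
            ∏ g ∈ A \ S, X g := by
        refine Finset.sum_congr rfl fun A _ => ?_
        rw [map_sum, Finset.sum_mul]
        refine Finset.sum_congr rfl fun Z _ => ?_
        split_ifs <;> simp
      rw [h3]
      apply coeff_sq D U S hDU
      intro A hA
      obtain ⟨Z, _, hZ⟩ := Finset.exists_ne_zero_of_sum_ne_zero hA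
      have h4 : InA lit ends e f S A Z := by
        by_contra h5
        rw [if_neg h5] at hZ
        exact hZ rfl
      obtain ⟨_, _, _, _, h6, h7, _⟩ := h4
      intro x hx
      have h8 := h7 (h6 (Finset.mem_insert_of_mem (Finset.mem_insert_of_mem hx)))
      rw [Finset.mem_insert, Finset.mem_insert] at h8
      rcases h8 with h8 | h8 | h8
      · exact absurd (h8 ▸ hx) hS.1
      · exact absurd (h8 ▸ hx) hS.2.1
      · exact h8
    · rw [if_neg hS, if_neg hS]
      simp
  simp_rw [h2]
  rw [← Finset.sum_filter]
  congr 1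
  ext S
  simp

end Pool.Agent.H482R3.SOS
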