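import Pool.Agent.H482R3.SOS.Embed

set_option autoImplicit false

namespace Pool.Agent.H482R3.SOS

open LadderIn

/-- binary trees, used as lookup tables -/
inductive Tr where
  | l (m : ℕ) : Tr
  | n (a b : Tr) : Tr

def Tr.get : Tr → ℕ → ℕ
  | .l m, _ => m
  | .n a b, x => bif Nat.beq (Nat.land x 1) 0 then a.get (Nat.div x 2) else b.get (Nat.div x 2)

section
open Tr
/-- table of the values `cyv a`, `a < 1024` -/
def tab : Tr :=
    (n (n (n (n (n (n (n (l 0) (n (l 0) (l 3264))) (n (l 0) (n (l 0) (l 3264)))) (n (n (l 0) (n (l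
    0) (l 3264))) (n (l 0) (n (l 0) (l 3264))))) (n (n (n (l 0) (n (l 0) (l 3264))) (n (l 0) (n (l
    0) (l 3264)))) (n (n (l 0) (n (l 0) (l 3264))) (l 0)))) (n (n (n (n (l 0) (n (l 0) (l 3264)))
    (n (n (l 0) (n (n (l 0) (l 3748)) (n (l 0) (l 3748)))) (n (l 0) (n (n (l 3264) (l 0)) (n (l
    3264) (l 0)))))) (n (n (l 0) (n (l 0) (l 3264))) (n (n (l 0) (n (n (l 0) (l 3748)) (n (l 0) (l
    3748)))) (n (l 0) (n (n (l 3264) (l 0)) (n (l 3264) (l 0))))))) (n (n (n (l 0) (n (l 0) (l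
    3264))) (n (n (l 0) (n (n (l 0) (l 3748)) (n (l 0) (l 3748)))) (n (l 0) (n (n (l 3264) (l 0))
    (n (l 3264) (l 0)))))) (n (n (l 0) (n (l 0) (n (n (l 3264) (l 0)) (n (l 3264) (l 0))))) (l
    0))))) (n (n (n (n (n (l 0) (n (l 0) (l 3264))) (n (l 0) (n (l 0) (l 3264)))) (n (n (l 0) (n (l
    0) (n (l 3264) (n (l 3264) (l 0))))) (n (l 0) (n (l 0) (n (l 3264) (n (l 3264) (l 0))))))) (n
    (n (n (l 0) (n (l 0) (l 3264))) (n (l 0) (n (l 0) (n (l 3264) (n (l 3264) (l 0)))))) (n (n (l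
    0) (n (l 0) (n (l 3264) (n (l 3264) (l 0))))) (l 0)))) (n (n (n (n (l 0) (n (l 0) (l 3264))) (n
    (n (l 0) (n (n (l 0) (l 3748)) (n (l 0) (l 3748)))) (n (l 0) (n (n (l 3264) (l 0)) (n (l 3264)
    (l 0)))))) (n (n (l 0) (n (l 0) (n (l 3264) (n (l 3264) (l 0))))) (n (n (l 0) (n (n (l 0) (l
    3748)) (n (l 3510) (l 0)))) (n (l 0) (n (n (l 3264) (l 0)) (l 0)))))) (n (n (n (l 0) (n (l 0)
    (n (l 3264) (l 0)))) (n (n (l 0) (n (n (l 0) (l 3748)) (l 0))) (n (l 0) (n (n (l 3264) (l 0))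
    (l 0))))) (n (n (l 0) (n (l 0) (n (n (l 3264) (l 0)) (l 0)))) (l 0)))))) (n (n (n (n (n (n (l
    0) (n (l 0) (l 3264))) (n (l 0) (n (l 0) (l 3264)))) (n (n (l 0) (n (l 0) (l 3264))) (n (l 0)
    (n (l 0) (n (l 3264) (l 0)))))) (n (n (n (l 0) (n (n (l 0) (l 3401)) (n (l 3264) (l 0)))) (n (l
    0) (n (n (l 0) (l 3401)) (n (l 3264) (l 0))))) (n (n (l 0) (n (n (l 0) (l 3401)) (n (l 3264) (l
    0)))) (l 0)))) (n (n (n (n (l 0) (n (l 0) (l 3264))) (n (n (l 0) (n (n (l 0) (l 3748)) (n (l 0)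
    (l 3748)))) (n (l 0) (n (n (l 3264) (l 0)) (n (l 3264) (l 0)))))) (n (n (l 0) (n (l 0) (n (l
    3264) (n (l 3264) (l 0))))) (n (n (l 0) (n (n (l 0) (l 3748)) (l 0))) (n (l 0) (n (n (l 3264)
    (l 0)) (l 0)))))) (n (n (n (l 0) (n (n (l 0) (l 3401)) (n (l 3264) (l 0)))) (n (n (n (l 0) (n
    (l 0) (l 3885))) (n (n (l 0) (l 3748)) (l 0))) (n (n (l 0) (n (l 3401) (l 0))) (n (n (l 3264)
    (l 0)) (l 0))))) (n (n (l 0) (n (n (l 0) (n (l 3401) (l 0))) (n (n (l 3264) (l 0)) (l 0)))) (l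
    0))))) (n (n (n (n (n (l 0) (n (l 0) (l 3264))) (n (l 0) (n (l 0) (n (n (l 3264) (l 0)) (n (l
    3264) (l 0)))))) (n (n (l 0) (n (l 0) (n (l 3264) (n (l 3264) (l 0))))) (n (l 0) (n (l 0) (n (n
    (l 3264) (l 0)) (l 0)))))) (n (n (n (l 0) (n (n (l 0) (l 3401)) (n (l 3264) (l 0)))) (n (l 0)
    (n (n (l 0) (n (l 3401) (l 0))) (n (n (l 3264) (l 0)) (l 0))))) (n (n (l 0) (n (n (n (l 0) (l
    3675)) (n (l 3401) (l 0))) (n (n (l 3264) (l 0)) (l 0)))) (l 0)))) (n (l 0) (n (l 0) (n (l 0)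
    (n (n (n (n (l 3135) (l 0)) (l 0)) (l 0)) (l 0))))))))
end

def gv (a : ℕ) : ℕ := tab.get a

theorem gv_eq' : ∀ a < 32, ∀ b < 32, Nat.beq (gv (32 * a + b)) (cyv (32 * a + b)) = true := by
  decide +kernel

theorem gv_eq {a : ℕ} (ha : a < 1024) : gv a = cyv a := by
  have h := gv_eq' (a / 32) (by omega) (a % 32) (by omega)
  rw [Nat.div_add_mod] at h
  exact Nat.eq_of_beq_eq_true h

/-- the codes of the subsets of `u` -/
def subs (u : ℕ) : List ℕ := (List.range 1024).filter fun x => Nat.beq (Nat.land x u) x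

def inSB (s : ℕ) : Bool := CL.any fun z => Nat.beq (Nat.land (Nat.lor s 3072) z) (Nat.lor s 3072)

def trm (s a b : ℕ) : List (ℕ × ℕ × ℕ) :=
  bif Nat.beq (gv a) 0 then [] else
    bif Nat.beq (Nat.land s (gv a)) s then
      bif Nat.beq (gv b) 0 then [] else
        bif Nat.beq (Nat.land s (gv b)) s then [(s, gv a, gv b)] else []
    else []

def terms (d u : ℕ) : List (ℕ × ℕ × ℕ) :=
  (subs u).flatMap fun s => bif inSB s then
    (subs (Nat.xor u s)).flatMap fun x =>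
      trm s (Nat.lor (Nat.lor s d) x) (Nat.lor (Nat.lor s d) (Nat.xor (Nat.xor u s) x)) else []

def lhs (d u : ℕ) : ℤ :=
  ((subs u).countP fun x => fB (Nat.lor (Nat.lor d x) 1024) &&
      fB (Nat.lor (Nat.lor d (Nat.xor u x)) 2048) : ℕ) -
  ((subs u).countP fun x => fB (Nat.lor d x) && fB (Nat.lor (Nat.lor d (Nat.xor u x)) 3072) : ℕ)

end Pool.Agent.H482R3.SOS
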