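import Pool.Agent.H482R3.SOS.Defs

set_option autoImplicit false

namespace Pool.Agent.H482R3.SOS

variable {V E : Type} [DecidableEq V] [DecidableEq E]

/-- all degrees of `D` are even (for graphs without loops) -/
def EvenSet (ends : E → Sym2 V) (D : Finset E) : Prop :=
  ∀ u : V, Even (D.filter fun x => u ∈ ends x).card

theorem IsCycle.even {ends : E → Sym2 V} (hloop : ∀ x, ¬ (ends x).IsDiag) {Z : Finset E}
    (hZ : IsCycle ends Z) : Z.Nonempty ∧ EvenSet ends Z ∧
      ∀ D ⊆ Z, D.Nonempty → EvenSet ends D → D = Z := by
  obtain ⟨k, hk, v, g, hv, hg, hends, hmem⟩ := hZ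
  have : NeZero k := ⟨hk.ne'⟩
  have hne : ∀ i : ZMod k, i + 1 ≠ i := by
    intro i h
    apply hloop (g i)
    rw [hends, h]
    simp
  have hinc : ∀ (i j : ZMod k), v j ∈ ends (g i) ↔ i = j ∨ i + 1 = j := by
    intro i j
    rw [hends, Sym2.mem_iff]
    constructor
    · rintro (h | h)
      · exact Or.inl (hv h).symm
      · exact Or.inr (hv h).symm
    · rintro (h | h)
      · exact Or.inl (by rw [h])
      · exact Or.inr (by rw [h])
  refine ⟨⟨g 0, (hmem _).2 ⟨0, rfl⟩⟩, ?_, ?_⟩
  · intro u
    by_cases hu : ∃ j, v j = u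
    · obtain ⟨j, rfl⟩ := hu
      have : (Z.filter fun x => v j ∈ ends x) = {g j, g (j - 1)} := by
        ext x
        simp only [Finset.mem_filter, Finset.mem_insert, Finset.mem_singleton]
        constructor
        · rintro ⟨hx, hx2⟩
          obtain ⟨i, rfl⟩ := (hmem x).1 hx
          rw [hinc] at hx2
          rcases hx2 with h | h
          · exact Or.inl (by rw [h])
          · right
            rw [← h]
            simp
        · rintro (rfl | rfl)
          · exact ⟨(hmem _).2 ⟨_, rfl⟩, (hinc _ _).2 (Or.inl rfl)⟩
          · exact ⟨(hmem _).2 ⟨_, rfl⟩, (hinc _ _).2 (Or.inr (by simp))⟩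
      rw [this, Finset.card_pair]
      · exact ⟨1, rfl⟩
      · intro h
        have h2 := hg h
        apply hne (j - 1)
        rw [← h2]
        simpa using h2.symm
    · have : (Z.filter fun x => u ∈ ends x) = ∅ := by
        rw [Finset.filter_eq_empty_iff]
        intro x hx hux
        obtain ⟨i, rfl⟩ := (hmem x).1 hx
        rw [hends, Sym2.mem_iff] at hux
        rcases hux with h | h
        · exact hu ⟨_, h.symm⟩
        · exact hu ⟨_, h.symm⟩
      rw [this]
      simp
  · intro D hD hDne hDe
    have step : ∀ i, g i ∈ D → g (i + 1) ∈ D := by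
      intro i hi
      by_contra hcon
      have : (D.filter fun x => v (i + 1) ∈ ends x) = {g i} := by
        ext x
        simp only [Finset.mem_filter, Finset.mem_singleton]
        constructor
        · rintro ⟨hx, hx2⟩
          obtain ⟨j, rfl⟩ := (hmem x).1 (hD hx)
          rw [hinc] at hx2
          rcases hx2 with h | h
          · exact absurd (h ▸ hx) hcon
          · rw [add_left_injective 1 h]
        · rintro rfl
          exact ⟨hi, (hinc _ _).2 (Or.inr rfl)⟩
      have h3 := hDe (v (i + 1))
      rw [this, Finset.card_singleton] at h3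
      exact Nat.not_even_one h3
    obtain ⟨x, hx⟩ := hDne
    obtain ⟨i0, rfl⟩ := (hmem x).1 (hD hx)
    have hall : ∀ n : ℕ, g (i0 + n) ∈ D := by
      intro n
      induction n with
      | zero => simpa using hx
      | succ n ih =>
        have := step _ ih
        push_cast
        rw [← add_assoc]
        exact this
    apply Finset.Subset.antisymm hD
    intro x hx
    obtain ⟨j, rfl⟩ := (hmem x).1 hx
    have h4 := hall (j - i0).val
    rw [ZMod.natCast_zmod_val] at h4
    simpa using h4

theorem isCycle_of_lists {ends : E → Sym2 V} (vs : List V) (gs : List E)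
    (hk : 0 < vs.length) (hlen : gs.length = vs.length) (hv : vs.Nodup) (hg : gs.Nodup)
    (h : ∀ i (hi : i < vs.length), ends (gs[i]'(by omega)) =
      s(vs[i], vs[(i + 1) % vs.length]'(Nat.mod_lt _ hk))) :
    IsCycle ends gs.toFinset := by
  have : NeZero vs.length := ⟨hk.ne'⟩
  refine ⟨vs.length, hk, fun i => vs[i.val]'(ZMod.val_lt i), fun i => gs[i.val]'(by
    rw [hlen]; exact ZMod.val_lt i), ?_, ?_, ?_, ?_⟩
  · intro i j hij
    apply ZMod.val_injective
    exact (List.Nodup.getElem_inj_iff hv).1 hij
  · intro i j hij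
    apply ZMod.val_injective
    exact (List.Nodup.getElem_inj_iff hg).1 hij
  · intro i
    have h2 := h i.val (ZMod.val_lt i)
    simp only
    rw [h2]
    have h3 : (i + 1).val = (i.val + 1) % vs.length := by
      rw [ZMod.val_add, ZMod.val_one_eq_one_mod]
      simp [Nat.add_mod]
    simp only [h3]
  · intro x
    rw [List.mem_toFinset]
    constructor
    · intro hx
      obtain ⟨i, hi, rfl⟩ := List.getElem_of_mem hx
      refine ⟨(i : ZMod vs.length), ?_⟩
      have : ((i : ZMod vs.length)).val = i := ZMod.val_natCast_of_lt (by omega)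
      simp only [this]
    · rintro ⟨i, rfl⟩
      exact List.getElem_mem _

end Pool.Agent.H482R3.SOS
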