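import Mathlib

set_option autoImplicit false

/-!
# Spanning forest polynomials and the sum-of-squares form of the Rayleigh difference: definitions

A finite graph (parallel edges and loops permitted) has vertex set `V`, edge set `E` and is given by
the map `ends : E → Sym2 V` sending an edge to the unordered pair of its ends.
-/

namespace Pool.Agent.H482R3.SOS

open MvPolynomial

variable {V E : Type}

/-- `Z` is a cycle, i.e. the edge set of a circuit: there are `k ≥ 1` distinct vertices `v i` and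
`k` distinct edges `g i` (with `i` modulo `k`) such that `g i` joins `v i` and `v (i + 1)` and `Z`
consists of the edges `g i`. (For `k = 1` this is a loop, for `k = 2` a pair of parallel edges.) -/
def IsCycle (ends : E → Sym2 V) (Z : Finset E) : Prop :=
  ∃ k : ℕ, 0 < k ∧ ∃ (v : ZMod k → V) (g : ZMod k → E),
    Function.Injective v ∧ Function.Injective g ∧
    (∀ i, ends (g i) = s(v i, v (i + 1))) ∧ ∀ x, x ∈ Z ↔ ∃ i, g i = x

/-- `A` is (the edge set of) a spanning forest: it contains no cycle. -/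
def IsForest (ends : E → Sym2 V) (A : Finset E) : Prop :=
  ∀ Z ⊆ A, ¬ IsCycle ends Z

section

variable [Fintype E] [DecidableEq E]

open Classical in
/-- The spanning forest polynomial `G = F(𝒢; y)`. -/
noncomputable def forestPoly (ends : E → Sym2 V) : MvPolynomial E ℤ :=
  ∑ A : Finset E, if IsForest ends A then ∏ g ∈ A, X g else 0

/-- The Rayleigh difference `ΔG{e, f} = G_e G_f - G G_{ef}`. -/
noncomputable def rayleigh (ends : E → Sym2 V) (e f : E) : MvPolynomial E ℤ :=
  pderiv e (forestPoly ends) * pderiv f (forestPoly ends) -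
    forestPoly ends * pderiv e (pderiv f (forestPoly ends))

/-- `S ∈ 𝒮`: `S ⊆ E ∖ {e, f}` and `S ∪ {e, f}` lies inside some cycle. -/
def InS (ends : E → Sym2 V) (e f : E) (S : Finset E) : Prop :=
  e ∉ S ∧ f ∉ S ∧ ∃ Z, IsCycle ends Z ∧ insert e (insert f S) ⊆ Z

/-- `A ∈ 𝒜(S)` and `C(S, A) = Z`: `A ⊆ E ∖ {e, f}` is a spanning forest and `Z` is a cycle with
`S ∪ {e, f} ⊆ Z ⊆ A ∪ {e, f}`, which is moreover the only cycle
* contained in `A ∪ {e, f}`, for `lit = false`;
* with `S ∪ {e, f} ⊆ Z ⊆ A ∪ {e, f}`, for `lit = true`. -/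
def InA (lit : Bool) (ends : E → Sym2 V) (e f : E) (S A Z : Finset E) : Prop :=
  e ∉ A ∧ f ∉ A ∧ IsForest ends A ∧ IsCycle ends Z ∧
    insert e (insert f S) ⊆ Z ∧ Z ⊆ insert e (insert f A) ∧
    ∀ Z', IsCycle ends Z' → Z' ⊆ insert e (insert f A) →
      (lit = true → insert e (insert f S) ⊆ Z') → Z' = Z

open Classical in
/-- `ΔG{e, f}` is SOS: there are signs `c(S, Z) = ±1` with
`ΔG{e, f} = ∑_{S ∈ 𝒮} y^S (∑_{A ∈ 𝒜(S)} c(S, C(S, A)) y^{A ∖ S})²`. -/
def IsSOS (lit : Bool) (ends : E → Sym2 V) (e f : E) : Prop :=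
  ∃ c : Finset E → Finset E → ℤ, (∀ S Z, c S Z = 1 ∨ c S Z = -1) ∧
    rayleigh ends e f = ∑ S : Finset E, if InS ends e f S then
      (∏ g ∈ S, X g) * (∑ A : Finset E, ∑ Z : Finset E,
        if InA lit ends e f S A Z then C (c S Z) * ∏ g ∈ A \ S, X g else 0) ^ 2 else 0

end

/-- The Moebius ladder on eight vertices: the vertices are `0, ..., 7`, the edges are the eight rim
edges `{i, i + 1}` (modulo 8) and the four rungs `{i, i + 4}`. The two opposite rim edges `{0, 1}`
and `{4, 5}` are listed last, with the indices `10` and `11`. -/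
def ladder : Fin 12 → Sym2 (Fin 8) :=
  ![s(1, 2), s(2, 3), s(3, 4), s(5, 6), s(6, 7), s(7, 0), s(0, 4), s(1, 5), s(2, 6), s(3, 7),
    s(0, 1), s(4, 5)]

end Pool.Agent.H482R3.SOS
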