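import Pool.Agent.H482R3.SOS.Ladder
import Pool.Agent.H482R3.SOS.Coeff

set_option autoImplicit false

namespace Pool.Agent.H482R3.SOS

variable {V E : Type} [Fintype E] [DecidableEq E]

/-- A copy of the ladder in the graph `ends`. -/
structure LadderIn (ends : E → Sym2 V) where
  κ : Fin 8 ↪ V
  ι : Fin 12 ↪ E
  comm : ∀ i, ends (ι i) = (ladder i).map κ

namespace LadderIn

variable {ends : E → Sym2 V} (L : LadderIn ends)

/-- the edge set coded by `n` in the copy of the ladder -/
def T (n : ℕ) : Finset E := (S n).map L.ι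

omit [Fintype E] [DecidableEq E] in
theorem cycle_map (Z : Finset (Fin 12)) : IsCycle ends (Z.map L.ι) ↔ IsCycle ladder Z := by
  constructor
  · rintro ⟨k, hk, v, g, hv, hg, hends, hmem⟩
    have h1 : ∀ i, ∃ j, L.ι j = g i := by
      intro i
      obtain ⟨j, _, hj⟩ := Finset.mem_map.1 ((hmem (g i)).2 ⟨i, rfl⟩)
      exact ⟨j, hj⟩
    choose g' hg' using h1
    have h2 : ∀ i, ∃ j, L.κ j = v i := by
      intro i
      have h3 := hends i
      rw [← hg', L.comm] at h3
      have h4 : v i ∈ (ladder (g' i)).map L.κ := by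
        rw [h3]
        simp
      rw [Sym2.mem_map] at h4
      obtain ⟨j, _, hj⟩ := h4
      exact ⟨j, hj⟩
    choose v' hv' using h2
    refine ⟨k, hk, v', g', ?_, ?_, ?_, ?_⟩
    · intro i j hij
      apply hv
      rw [← hv', ← hv', hij]
    · intro i j hij
      apply hg
      rw [← hg', ← hg', hij]
    · intro i
      apply Sym2.map.injective L.κ.injective
      rw [← L.comm, hg', hends, Sym2.map_mk, hv', hv']
    · intro x
      have := hmem (L.ι x)
      rw [Finset.mem_map' L.ι] at this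
      rw [this]
      constructor
      · rintro ⟨i, hi⟩
        exact ⟨i, L.ι.injective (by rw [hg', hi])⟩
      · rintro ⟨i, hi⟩
        exact ⟨i, by rw [← hg', hi]⟩
  · rintro ⟨k, hk, v, g, hv, hg, hends, hmem⟩
    refine ⟨k, hk, fun i => L.κ (v i), fun i => L.ι (g i), ?_, ?_, ?_, ?_⟩
    · intro i j hij
      exact hv (L.κ.injective hij)
    · intro i j hij
      exact hg (L.ι.injective hij)
    · intro i
      simp only
      rw [L.comm, hends, Sym2.map_mk]
    · intro x
      rw [Finset.mem_map]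
      constructor
      · rintro ⟨y, hy, rfl⟩
        obtain ⟨i, rfl⟩ := (hmem y).1 hy
        exact ⟨i, rfl⟩
      · rintro ⟨i, rfl⟩
        exact ⟨g i, (hmem _).2 ⟨i, rfl⟩, rfl⟩

omit [Fintype E] [DecidableEq E] in
theorem T_subset {a b : ℕ} (ha : a < 4096) : L.T a ⊆ L.T b ↔ a &&& b = a := by
  unfold T
  rw [Finset.map_subset_map, S_subset ha]

omit [Fintype E] [DecidableEq E] in
theorem T_inj {a b : ℕ} (ha : a < 4096) (hb : b < 4096) (h : L.T a = L.T b) : a = b :=
  S_inj ha hb (Finset.map_injective L.ι h)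

omit [Fintype E] [DecidableEq E] in
theorem exists_T {Z : Finset E} {a : ℕ} (h : Z ⊆ L.T a) : ∃ z < 4096, L.T z = Z := by
  obtain ⟨D, _, hD⟩ := Finset.subset_map_iff.1 h
  obtain ⟨n, hn, rfl⟩ := S_surj D
  exact ⟨n, hn, hD.symm⟩

omit [Fintype E] [DecidableEq E] in
theorem cycle_T {z : ℕ} (hz : z < 4096) : IsCycle ends (L.T z) ↔ z ∈ CL := by
  unfold T
  rw [cycle_map]
  exact ⟨mem_of_cycle hz, cycle_of_mem z⟩

theorem S_or (a b : ℕ) : S (a ||| b) = S a ∪ S b := by
  ext i
  rw [Finset.mem_union, mem_S, mem_S, mem_S, Nat.testBit_or, Bool.or_eq_true]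

theorem S_xor {u x : ℕ} (h : x &&& u = x) : S (u ^^^ x) = S u \ S x := by
  ext i
  rw [Finset.mem_sdiff, mem_S, mem_S, mem_S, Nat.testBit_xor]
  have h2 : x.testBit i.val = (x.testBit i.val && u.testBit i.val) := by
    rw [← Nat.testBit_and, h]
  rcases h3 : x.testBit i.val <;> rcases h4 : u.testBit i.val <;> simp_all

omit [Fintype E] in
theorem T_or (a b : ℕ) : L.T (a ||| b) = L.T a ∪ L.T b := by
  unfold T
  rw [S_or, Finset.map_union]

omit [Fintype E] in
theorem T_xor {u x : ℕ} (h : x &&& u = x) : L.T (u ^^^ x) = L.T u \ L.T x := by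
  unfold T
  rw [S_xor h, Finset.map_sdiff]

omit [Fintype E] in
theorem T_e (a : ℕ) : L.T (a ||| 1024) = insert (L.ι 10) (L.T a) := by
  rw [T_or]
  have : L.T 1024 = {L.ι 10} := by
    unfold T
    rw [show S 1024 = {10} by decide +kernel, Finset.map_singleton]
  rw [this, Finset.union_comm, Finset.insert_eq]

omit [Fintype E] in
theorem T_f (a : ℕ) : L.T (a ||| 2048) = insert (L.ι 11) (L.T a) := by
  rw [T_or]
  have : L.T 2048 = {L.ι 11} := by
    unfold T
    rw [show S 2048 = {11} by decide +kernel, Finset.map_singleton]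
  rw [this, Finset.union_comm, Finset.insert_eq]

omit [Fintype E] in
theorem T_ef (a : ℕ) : L.T (a ||| 3072) = insert (L.ι 10) (insert (L.ι 11) (L.T a)) := by
  rw [← T_f, ← T_e, Nat.or_assoc]
  rfl

omit [Fintype E] in
theorem T_fe (a : ℕ) : L.T (a ||| 3072) = insert (L.ι 11) (insert (L.ι 10) (L.T a)) := by
  rw [← T_e, ← T_f, Nat.or_assoc]
  rfl

theorem notMem_S {a : ℕ} (ha : a < 1024) {i : Fin 12} (hi : 10 ≤ i.val) : i ∉ S a := by
  rw [mem_S]
  have h2 : (1024 : ℕ) ≤ 2 ^ i.val := by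
    calc (1024 : ℕ) = 2 ^ 10 := by norm_num
      _ ≤ 2 ^ i.val := Nat.pow_le_pow_right (by norm_num) hi
  rw [Nat.testBit_lt_two_pow (by omega)]
  simp

omit [Fintype E] [DecidableEq E] in
theorem e_notMem {a : ℕ} (ha : a < 1024) : L.ι 10 ∉ L.T a := by
  unfold T
  rw [Finset.mem_map' L.ι]
  exact notMem_S ha (by decide)

omit [Fintype E] [DecidableEq E] in
theorem f_notMem {a : ℕ} (ha : a < 1024) : L.ι 11 ∉ L.T a := by
  unfold T
  rw [Finset.mem_map' L.ι]
  exact notMem_S ha (by decide)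

/-- forest test -/
def fB (a : ℕ) : Bool := CL.all fun z => !(Nat.beq (Nat.land z a) z)

omit [Fintype E] [DecidableEq E] in
theorem forest_T (a : ℕ) : IsForest ends (L.T a) ↔ fB a = true := by
  unfold fB
  rw [List.all_eq_true]
  constructor
  · intro h z hz
    have hzl := CL_lt z hz
    rw [Bool.not_eq_true']
    rcases h2 : Nat.beq (Nat.land z a) z with _ | _
    · rfl
    · exfalso
      have h3 := Nat.eq_of_beq_eq_true h2
      exact h (L.T z) ((L.T_subset hzl).2 h3) ((L.cycle_T hzl).2 hz)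
  · intro h Z hZ hcyc
    obtain ⟨z, hz, rfl⟩ := L.exists_T hZ
    rw [L.T_subset hz] at hZ
    rw [L.cycle_T hz] at hcyc
    have h2 := h z hcyc
    have h3 : Nat.beq (Nat.land z a) z = true := by
      have : Nat.land z a = z := hZ
      rw [this]
      exact Nat.beq_refl z
    rw [h3] at h2
    exact absurd h2 (by decide)


/-- the cycle of `a ∪ {e, f}` if there is exactly one, and it contains `e` and `f`; otherwise `0` -/
def cyv (a : ℕ) : ℕ :=
  match CL.filter fun z => Nat.beq (Nat.land z (Nat.lor a 3072)) z with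
  | [z] => bif Nat.beq (Nat.land 3072 z) 3072 then z else 0
  | _ => 0

/-- the sign used -/
def hh (C : ℕ → ℕ → ℤ) (s a : ℕ) : ℤ :=
  bif Nat.beq (cyv a) 0 then 0 else
    bif Nat.beq (Nat.land s (cyv a)) s then C s (cyv a) else 0

theorem filter_CL_ne {a : ℕ} {z : ℕ} (h : CL.filter (fun z => Nat.beq (Nat.land z (Nat.lor a 3072)) z) = [z]) :
    ∀ y, (y ∈ CL ∧ y &&& (a ||| 3072) = y) ↔ y = z := by
  intro y
  have h2 : y ∈ CL.filter (fun z => Nat.beq (Nat.land z (Nat.lor a 3072)) z) ↔ y = z := by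
    rw [h]
    simp
  rw [← h2, List.mem_filter]
  constructor
  · rintro ⟨h3, h4⟩
    refine ⟨h3, ?_⟩
    have : Nat.land y (Nat.lor a 3072) = y := h4
    rw [this]
    exact Nat.beq_refl y
  · rintro ⟨h3, h4⟩
    exact ⟨h3, Nat.eq_of_beq_eq_true h4⟩

theorem cyv_spec (a z : ℕ) : (cyv a = z ∧ z ≠ 0) ↔
    (z ∈ CL ∧ z &&& (a ||| 3072) = z ∧ 3072 &&& z = 3072 ∧
      ∀ y ∈ CL, y &&& (a ||| 3072) = y → y = z) := by
  constructor
  · rintro ⟨h1, h2⟩
    unfold cyv at h1
    split at h1
    · rename_i w hw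
      have h3 := filter_CL_ne hw
      rcases h4 : Nat.beq (Nat.land 3072 w) 3072 with _ | _
      · rw [h4] at h1
        exact absurd h1.symm h2
      · rw [h4] at h1
        have h5 : w = z := h1
        subst h5
        have h6 := (h3 w).2 rfl
        exact ⟨h6.1, h6.2, Nat.eq_of_beq_eq_true h4, fun y hy hy2 => (h3 y).1 ⟨hy, hy2⟩⟩
    · exact absurd h1.symm h2
  · rintro ⟨h1, h2, h3, h4⟩
    have hz : z ≠ 0 := by
      rintro rfl
      simp at h3
    refine ⟨?_, hz⟩
    have h5 : CL.filter (fun z => Nat.beq (Nat.land z (Nat.lor a 3072)) z) = [z] := by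
      have hnd : (CL.filter (fun z => Nat.beq (Nat.land z (Nat.lor a 3072)) z)).Nodup :=
        List.Nodup.filter _ (by decide)
      have h6 : ∀ y, y ∈ CL.filter (fun z => Nat.beq (Nat.land z (Nat.lor a 3072)) z) ↔ y ∈ [z] := by
        intro y
        rw [List.mem_filter, List.mem_singleton]
        constructor
        · rintro ⟨h7, h8⟩
          exact h4 y h7 (Nat.eq_of_beq_eq_true h8)
        · rintro rfl
          refine ⟨h1, ?_⟩
          have : Nat.land y (Nat.lor a 3072) = y := h2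
          rw [this]
          exact Nat.beq_refl y
      exact List.perm_singleton.1 ((List.perm_ext_iff_of_nodup hnd (List.nodup_singleton z)).2 h6)
    unfold cyv
    rw [h5]
    have : Nat.land 3072 z = 3072 := h3
    simp only
    rw [this]
    rfl

end LadderIn

end Pool.Agent.H482R3.SOS
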