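import Pool.Agent.H482R3.SOS.Vals

set_option autoImplicit false

namespace Pool.Agent.H482R3.SOS

variable {V E : Type} [Fintype E] [DecidableEq E]

namespace LadderIn

variable {ends : E → Sym2 V} (L : LadderIn ends)

theorem sum_ind (l : List ℕ) (p q : ℕ → Bool) :
    (l.map fun x => ((if p x = true then (1 : ℤ) else 0) - (if q x = true then 1 else 0))).sum =
      (l.countP p : ℤ) - (l.countP q : ℤ) := by
  induction l with
  | nil => rfl
  | cons a l ih =>
    rw [List.map_cons, List.sum_cons, ih, List.countP_cons, List.countP_cons]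
    push_cast
    ring

open Classical in
omit [Fintype E] in
theorem lhs_eq {d u : ℕ} (hd : d < 1024) (hu : u < 1024) :
    (∑ X ∈ (L.T u).powerset,
        ((if (L.ι 10 ∉ L.T d ∪ X ∧ IsForest ends (insert (L.ι 10) (L.T d ∪ X))) ∧
            (L.ι 11 ∉ L.T d ∪ (L.T u \ X) ∧
              IsForest ends (insert (L.ι 11) (L.T d ∪ (L.T u \ X)))) then (1 : ℤ) else 0) -
        (if IsForest ends (L.T d ∪ X) ∧ (L.ι 10 ∉ L.T d ∪ (L.T u \ X) ∧
            L.ι 11 ∉ insert (L.ι 10) (L.T d ∪ (L.T u \ X)) ∧
            IsForest ends (insert (L.ι 11) (insert (L.ι 10) (L.T d ∪ (L.T u \ X)))))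
          then (1 : ℤ) else 0))) = lhs d u := by
  rw [L.sum_powerset_T hu]
  unfold lhs
  rw [← sum_ind]
  apply map_sum_congr
  intro x hx
  rw [mem_subs] at hx
  rw [← L.T_xor hx.2, ← L.T_or, ← L.T_or]
  have h1 : L.ι 10 ∉ L.T (d ||| x) := L.e_notMem (or_lt hd hx.1)
  have h2 : L.ι 10 ∉ L.T (d ||| (u ^^^ x)) := L.e_notMem (or_lt hd (xor_lt hu hx.1))
  have h3 : L.ι 11 ∉ L.T (d ||| (u ^^^ x)) := L.f_notMem (or_lt hd (xor_lt hu hx.1))
  have h4 : L.ι 11 ∉ insert (L.ι 10) (L.T (d ||| (u ^^^ x))) := by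
    rw [Finset.mem_insert]
    rintro (h | h)
    · exact absurd (L.ι.injective h) (by decide)
    · exact h3 h
  rw [← L.T_e, ← L.T_f, ← L.T_fe]
  rw [L.forest_T, L.forest_T, L.forest_T, L.forest_T]
  simp only [h1, h2, h3, h4, not_false_eq_true, true_and]
  congr 1
  · apply if_congr _ rfl rfl
    rw [Bool.and_eq_true]
    rfl
  · apply if_congr _ rfl rfl
    rw [Bool.and_eq_true]
    rfl

/-- The coefficient identities, in terms of codes. -/
theorem key (h : IsSOS false ends (L.ι 10) (L.ι 11)) :
    ∃ C : ℕ → ℕ → ℤ, (∀ s z, C s z = 1 ∨ C s z = -1) ∧ ∀ d u, d < 1024 → u < 1024 →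
      d &&& u = 0 → lhs d u = ((terms d u).map fun t => C t.1 t.2.1 * C t.1 t.2.2).sum := by
  obtain ⟨c, hc, heq⟩ := sos_coeff h
  refine ⟨L.sg c, fun s z => hc _ _, ?_⟩
  intro d u hd hu hdu
  have hdis : Disjoint (L.T d) (L.T u) := by
    rw [Finset.disjoint_left]
    intro x hx hx2
    unfold T at hx hx2
    rw [Finset.mem_map] at hx hx2
    obtain ⟨i, hi, rfl⟩ := hx
    obtain ⟨j, hj, hij⟩ := hx2
    rw [L.ι.injective hij, mem_S] at hj
    rw [mem_S] at hi
    have : (d &&& u).testBit i.val = true := by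
      rw [Nat.testBit_and, hi, hj]
      rfl
    rw [hdu] at this
    simp at this
  rw [← L.rhs_eq c hd hu, ← L.lhs_eq hd hu]
  exact heq _ _ hdis

theorem not_sos_false : ¬ IsSOS false ends (L.ι 10) (L.ι 11) := by
  intro h
  obtain ⟨C, hC, heq⟩ := L.key h
  have hsq : ∀ s z, C s z * C s z = 1 := by
    intro s z
    rcases hC s z with h | h <;> rw [h] <;> norm_num
  have neg : ∀ s z w, C s z * C s w + C s w * C s z = -2 → C s w = - C s z := by
    intro s z w h
    have h1 : C s z * C s w = -1 := by linarith [mul_comm (C s w) (C s z)]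
    calc C s w = (C s z * C s z) * C s w := by rw [hsq, one_mul]
      _ = C s z * (C s z * C s w) := by ring
      _ = - C s z := by rw [h1]; ring
  have pos : ∀ s z w, C s z * C s w + C s w * C s z = 2 → C s w = C s z := by
    intro s z w h
    have h1 : C s z * C s w = 1 := by linarith [mul_comm (C s w) (C s z)]
    calc C s w = (C s z * C s z) * C s w := by rw [hsq, one_mul]
      _ = C s z * (C s z * C s w) := by ring
      _ = C s z := by rw [h1]; ring
  have q1 := heq 9 630 (by norm_num) (by norm_num) (by decide)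
  have q2 := heq 3 252 (by norm_num) (by norm_num) (by decide)
  have q3 := heq 12 752 (by norm_num) (by norm_num) (by decide)
  have q4 := heq 11 372 (by norm_num) (by norm_num) (by decide)
  have q5 := heq 36 411 (by norm_num) (by norm_num) (by decide)
  have q6 := heq 27 704 (by norm_num) (by norm_num) (by decide)
  have q7 := heq 9 448 (by norm_num) (by norm_num) (by decide)
  have q8 := heq 45 786 (by norm_num) (by norm_num) (by decide)
  have q9 := heq 22 488 (by norm_num) (by norm_num) (by decide)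
  have q10 := heq 37 666 (by norm_num) (by norm_num) (by decide)
  have q11 := heq 18 493 (by norm_num) (by norm_num) (by decide)
  have q12 := heq 9 758 (by norm_num) (by norm_num) (by decide)
  have q13 := heq 0 1023 (by norm_num) (by norm_num) (by decide)
  rw [lhs_9_630, terms_9_630] at q1
  rw [lhs_3_252, terms_3_252] at q2
  rw [lhs_12_752, terms_12_752] at q3
  rw [lhs_11_372, terms_11_372] at q4
  rw [lhs_36_411, terms_36_411] at q5
  rw [lhs_27_704, terms_27_704] at q6
  rw [lhs_9_448, terms_9_448] at q7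
  rw [lhs_45_786, terms_45_786] at q8
  rw [lhs_22_488, terms_22_488] at q9
  rw [lhs_37_666, terms_37_666] at q10
  rw [lhs_18_493, terms_18_493] at q11
  rw [lhs_9_758, terms_9_758] at q12
  rw [lhs_0_1023, terms_0_1023] at q13
  simp only [List.map_cons, List.map_nil, List.sum_cons, List.sum_nil, add_zero] at q1 q2 q3 q4 q5
  simp only [List.map_cons, List.map_nil, List.sum_cons, List.sum_nil, add_zero] at q6 q7 q8 q9 q10
  simp only [List.map_cons, List.map_nil, List.sum_cons, List.sum_nil, add_zero] at q11 q12 q13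
  have r1 := neg 18 3135 3675 q1.symm
  have r2 := neg 0 3135 3264 q2.symm
  have r3 := pos 128 3264 3748 q3.symm
  have r4 := neg 0 3135 3401 q4.symm
  have r5 := neg 18 3135 3510 q5.symm
  have r6 := pos 64 3264 3675 q6.symm
  have r7 := pos 64 3264 3401 q7.symm
  have r8 := neg 0 3135 3885 q8.symm
  have r9 := pos 128 3264 3510 q9.symm
  have r10 := neg 0 3135 3748 q10.symm
  rw [r2, r7, r9] at q11
  rw [r2, r6, r3] at q12
  rw [r1, r2, r3, r4, r5, r6, r7, r8, r9, r10] at q13
  have a1 := hsq 0 3135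
  have a2 := hsq 64 3264
  have a3 := hsq 128 3264
  have a4 := hsq 18 3135
  have a5 : C 256 3401 * C 256 3510 = -1 := by
    linarith [mul_comm (C 256 3401) (C 256 3510)]
  have a6 : C 512 3675 * C 512 3748 = -1 := by
    linarith [mul_comm (C 512 3675) (C 512 3748)]
  have b1 := mul_comm (C 256 3401) (C 256 3510)
  have b2 := mul_comm (C 512 3675) (C 512 3748)
  simp only [hsq, neg_mul, mul_neg, neg_neg] at q13
  linarith

end LadderIn

end Pool.Agent.H482R3.SOS
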