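import Pool.Agent.H482R3.SOS.Cyc

set_option autoImplicit false

namespace Pool.Agent.H482R3.SOS

/-- the set coded by the bits of `n` -/
def S (n : ℕ) : Finset (Fin 12) := Finset.univ.filter fun i => n.testBit i.val = true

theorem mem_S {n : ℕ} {i : Fin 12} : i ∈ S n ↔ n.testBit i.val = true := by
  simp [S]

theorem S_inj {a b : ℕ} (ha : a < 4096) (hb : b < 4096) (h : S a = S b) : a = b := by
  apply Nat.eq_of_testBit_eq
  intro i
  by_cases hi : i < 12
  · have h1 := Finset.ext_iff.1 h ⟨i, hi⟩
    rw [mem_S, mem_S] at h1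
    exact Bool.eq_iff_iff.2 h1
  · have h2 : (4096 : ℕ) ≤ 2 ^ i := by
      calc (4096 : ℕ) = 2 ^ 12 := by norm_num
        _ ≤ 2 ^ i := Nat.pow_le_pow_right (by norm_num) (by omega)
    rw [Nat.testBit_lt_two_pow (by omega), Nat.testBit_lt_two_pow (by omega)]

theorem S_surj (D : Finset (Fin 12)) : ∃ n < 4096, S n = D := by
  have hb : Function.Bijective (fun n : Fin 4096 => S n.val) := by
    rw [Fintype.bijective_iff_injective_and_card]
    refine ⟨fun a b h => Fin.ext (S_inj a.2 b.2 h), ?_⟩
    rw [Fintype.card_finset, Fintype.card_fin, Fintype.card_fin]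
    norm_num
  obtain ⟨n, hn⟩ := hb.2 D
  exact ⟨n.val, n.2, hn⟩

theorem S_subset {a b : ℕ} (ha : a < 4096) : S a ⊆ S b ↔ a &&& b = a := by
  constructor
  · intro h
    apply S_inj (lt_of_le_of_lt Nat.and_le_left ha) ha
    ext i
    rw [mem_S, mem_S, Nat.testBit_and]
    constructor
    · intro h1
      simp only [Bool.and_eq_true] at h1
      exact h1.1
    · intro h1
      have := h (mem_S.2 h1)
      rw [mem_S] at this
      simp [h1, this]
  · intro h i hi
    rw [mem_S] at hi ⊢
    rw [← h, Nat.testBit_and] at hi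
    simp only [Bool.and_eq_true] at hi
    exact hi.2

def CL : List ℕ := [255, 374, 393, 612, 667, 786, 1095, 1208, 1329, 1486, 1571, 1756, 1877, 1962, 2168, 2183, 2318, 2545, 2588, 2787, 2922, 2965, 3135, 3264, 3401, 3510, 3675, 3748, 3885]

theorem CL_lt : ∀ n ∈ CL, n < 4096 := by
  decide

theorem cyc255 : IsCycle ladder (S 255) := by
  have h : S 255 = ([5, 4, 3, 7, 0, 1, 2, 6] : List (Fin 12)).toFinset := by decide +kernel
  rw [h]
  exact isCycle_of_lists [0, 7, 6, 5, 1, 2, 3, 4] [5, 4, 3, 7, 0, 1, 2, 6] (by decide) (by decide) (by decide) (by decide) (by decide +kernel)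

theorem cyc374 : IsCycle ladder (S 374) := by
  have h : S 374 = ([5, 4, 8, 1, 2, 6] : List (Fin 12)).toFinset := by decide +kernel
  rw [h]
  exact isCycle_of_lists [0, 7, 6, 2, 3, 4] [5, 4, 8, 1, 2, 6] (by decide) (by decide) (by decide) (by decide) (by decide +kernel)

theorem cyc393 : IsCycle ladder (S 393) := by
  have h : S 393 = ([0, 8, 3, 7] : List (Fin 12)).toFinset := by decide +kernel
  rw [h]
  exact isCycle_of_lists [1, 2, 6, 5] [0, 8, 3, 7] (by decide) (by decide) (by decide) (by decide) (by decide +kernel)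

theorem cyc612 : IsCycle ladder (S 612) := by
  have h : S 612 = ([5, 9, 2, 6] : List (Fin 12)).toFinset := by decide +kernel
  rw [h]
  exact isCycle_of_lists [0, 7, 3, 4] [5, 9, 2, 6] (by decide) (by decide) (by decide) (by decide) (by decide +kernel)

theorem cyc667 : IsCycle ladder (S 667) := by
  have h : S 667 = ([0, 1, 9, 4, 3, 7] : List (Fin 12)).toFinset := by decide +kernel
  rw [h]
  exact isCycle_of_lists [1, 2, 3, 7, 6, 5] [0, 1, 9, 4, 3, 7] (by decide) (by decide) (by decide) (by decide) (by decide +kernel)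

theorem cyc786 : IsCycle ladder (S 786) := by
  have h : S 786 = ([1, 9, 4, 8] : List (Fin 12)).toFinset := by decide +kernel
  rw [h]
  exact isCycle_of_lists [2, 3, 7, 6] [1, 9, 4, 8] (by decide) (by decide) (by decide) (by decide) (by decide +kernel)

theorem cyc1095 : IsCycle ladder (S 1095) := by
  have h : S 1095 = ([6, 2, 1, 0, 10] : List (Fin 12)).toFinset := by decide +kernel
  rw [h]
  exact isCycle_of_lists [0, 4, 3, 2, 1] [6, 2, 1, 0, 10] (by decide) (by decide) (by decide) (by decide) (by decide +kernel)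

theorem cyc1208 : IsCycle ladder (S 1208) := by
  have h : S 1208 = ([5, 4, 3, 7, 10] : List (Fin 12)).toFinset := by decide +kernel
  rw [h]
  exact isCycle_of_lists [0, 7, 6, 5, 1] [5, 4, 3, 7, 10] (by decide) (by decide) (by decide) (by decide) (by decide +kernel)

theorem cyc1329 : IsCycle ladder (S 1329) := by
  have h : S 1329 = ([5, 4, 8, 0, 10] : List (Fin 12)).toFinset := by decide +kernel
  rw [h]
  exact isCycle_of_lists [0, 7, 6, 2, 1] [5, 4, 8, 0, 10] (by decide) (by decide) (by decide) (by decide) (by decide +kernel)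

theorem cyc1486 : IsCycle ladder (S 1486) := by
  have h : S 1486 = ([6, 2, 1, 8, 3, 7, 10] : List (Fin 12)).toFinset := by decide +kernel
  rw [h]
  exact isCycle_of_lists [0, 4, 3, 2, 6, 5, 1] [6, 2, 1, 8, 3, 7, 10] (by decide) (by decide) (by decide) (by decide) (by decide +kernel)

theorem cyc1571 : IsCycle ladder (S 1571) := by
  have h : S 1571 = ([5, 9, 1, 0, 10] : List (Fin 12)).toFinset := by decide +kernel
  rw [h]
  exact isCycle_of_lists [0, 7, 3, 2, 1] [5, 9, 1, 0, 10] (by decide) (by decide) (by decide) (by decide) (by decide +kernel)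

theorem cyc1756 : IsCycle ladder (S 1756) := by
  have h : S 1756 = ([6, 2, 9, 4, 3, 7, 10] : List (Fin 12)).toFinset := by decide +kernel
  rw [h]
  exact isCycle_of_lists [0, 4, 3, 7, 6, 5, 1] [6, 2, 9, 4, 3, 7, 10] (by decide) (by decide) (by decide) (by decide) (by decide +kernel)

theorem cyc1877 : IsCycle ladder (S 1877) := by
  have h : S 1877 = ([6, 2, 9, 4, 8, 0, 10] : List (Fin 12)).toFinset := by decide +kernel
  rw [h]
  exact isCycle_of_lists [0, 4, 3, 7, 6, 2, 1] [6, 2, 9, 4, 8, 0, 10] (by decide) (by decide) (by decide) (by decide) (by decide +kernel)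

theorem cyc1962 : IsCycle ladder (S 1962) := by
  have h : S 1962 = ([5, 9, 1, 8, 3, 7, 10] : List (Fin 12)).toFinset := by decide +kernel
  rw [h]
  exact isCycle_of_lists [0, 7, 3, 2, 6, 5, 1] [5, 9, 1, 8, 3, 7, 10] (by decide) (by decide) (by decide) (by decide) (by decide +kernel)

theorem cyc2168 : IsCycle ladder (S 2168) := by
  have h : S 2168 = ([5, 4, 3, 11, 6] : List (Fin 12)).toFinset := by decide +kernel
  rw [h]
  exact isCycle_of_lists [0, 7, 6, 5, 4] [5, 4, 3, 11, 6] (by decide) (by decide) (by decide) (by decide) (by decide +kernel)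

theorem cyc2183 : IsCycle ladder (S 2183) := by
  have h : S 2183 = ([0, 1, 2, 11, 7] : List (Fin 12)).toFinset := by decide +kernel
  rw [h]
  exact isCycle_of_lists [1, 2, 3, 4, 5] [0, 1, 2, 11, 7] (by decide) (by decide) (by decide) (by decide) (by decide +kernel)

theorem cyc2318 : IsCycle ladder (S 2318) := by
  have h : S 2318 = ([1, 2, 11, 3, 8] : List (Fin 12)).toFinset := by decide +kernel
  rw [h]
  exact isCycle_of_lists [2, 3, 4, 5, 6] [1, 2, 11, 3, 8] (by decide) (by decide) (by decide) (by decide) (by decide +kernel)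

theorem cyc2545 : IsCycle ladder (S 2545) := by
  have h : S 2545 = ([5, 4, 8, 0, 7, 11, 6] : List (Fin 12)).toFinset := by decide +kernel
  rw [h]
  exact isCycle_of_lists [0, 7, 6, 2, 1, 5, 4] [5, 4, 8, 0, 7, 11, 6] (by decide) (by decide) (by decide) (by decide) (by decide +kernel)

theorem cyc2588 : IsCycle ladder (S 2588) := by
  have h : S 2588 = ([2, 11, 3, 4, 9] : List (Fin 12)).toFinset := by decide +kernel
  rw [h]
  exact isCycle_of_lists [3, 4, 5, 6, 7] [2, 11, 3, 4, 9] (by decide) (by decide) (by decide) (by decide) (by decide +kernel)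

theorem cyc2787 : IsCycle ladder (S 2787) := by
  have h : S 2787 = ([5, 9, 1, 0, 7, 11, 6] : List (Fin 12)).toFinset := by decide +kernel
  rw [h]
  exact isCycle_of_lists [0, 7, 3, 2, 1, 5, 4] [5, 9, 1, 0, 7, 11, 6] (by decide) (by decide) (by decide) (by decide) (by decide +kernel)

theorem cyc2922 : IsCycle ladder (S 2922) := by
  have h : S 2922 = ([5, 9, 1, 8, 3, 11, 6] : List (Fin 12)).toFinset := by decide +kernel
  rw [h]
  exact isCycle_of_lists [0, 7, 3, 2, 6, 5, 4] [5, 9, 1, 8, 3, 11, 6] (by decide) (by decide) (by decide) (by decide) (by decide +kernel)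

theorem cyc2965 : IsCycle ladder (S 2965) := by
  have h : S 2965 = ([0, 8, 4, 9, 2, 11, 7] : List (Fin 12)).toFinset := by decide +kernel
  rw [h]
  exact isCycle_of_lists [1, 2, 6, 7, 3, 4, 5] [0, 8, 4, 9, 2, 11, 7] (by decide) (by decide) (by decide) (by decide) (by decide +kernel)

theorem cyc3135 : IsCycle ladder (S 3135) := by
  have h : S 3135 = ([5, 4, 3, 11, 2, 1, 0, 10] : List (Fin 12)).toFinset := by decide +kernel
  rw [h]
  exact isCycle_of_lists [0, 7, 6, 5, 4, 3, 2, 1] [5, 4, 3, 11, 2, 1, 0, 10] (by decide) (by decide) (by decide) (by decide) (by decide +kernel)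

theorem cyc3264 : IsCycle ladder (S 3264) := by
  have h : S 3264 = ([6, 11, 7, 10] : List (Fin 12)).toFinset := by decide +kernel
  rw [h]
  exact isCycle_of_lists [0, 4, 5, 1] [6, 11, 7, 10] (by decide) (by decide) (by decide) (by decide) (by decide +kernel)

theorem cyc3401 : IsCycle ladder (S 3401) := by
  have h : S 3401 = ([6, 11, 3, 8, 0, 10] : List (Fin 12)).toFinset := by decide +kernel
  rw [h]
  exact isCycle_of_lists [0, 4, 5, 6, 2, 1] [6, 11, 3, 8, 0, 10] (by decide) (by decide) (by decide) (by decide) (by decide +kernel)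

theorem cyc3510 : IsCycle ladder (S 3510) := by
  have h : S 3510 = ([5, 4, 8, 1, 2, 11, 7, 10] : List (Fin 12)).toFinset := by decide +kernel
  rw [h]
  exact isCycle_of_lists [0, 7, 6, 2, 3, 4, 5, 1] [5, 4, 8, 1, 2, 11, 7, 10] (by decide) (by decide) (by decide) (by decide) (by decide +kernel)

theorem cyc3675 : IsCycle ladder (S 3675) := by
  have h : S 3675 = ([6, 11, 3, 4, 9, 1, 0, 10] : List (Fin 12)).toFinset := by decide +kernel
  rw [h]
  exact isCycle_of_lists [0, 4, 5, 6, 7, 3, 2, 1] [6, 11, 3, 4, 9, 1, 0, 10] (by decide) (by decide) (by decide) (by decide) (by decide +kernel)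

theorem cyc3748 : IsCycle ladder (S 3748) := by
  have h : S 3748 = ([5, 9, 2, 11, 7, 10] : List (Fin 12)).toFinset := by decide +kernel
  rw [h]
  exact isCycle_of_lists [0, 7, 3, 4, 5, 1] [5, 9, 2, 11, 7, 10] (by decide) (by decide) (by decide) (by decide) (by decide +kernel)

theorem cyc3885 : IsCycle ladder (S 3885) := by
  have h : S 3885 = ([5, 9, 2, 11, 3, 8, 0, 10] : List (Fin 12)).toFinset := by decide +kernel
  rw [h]
  exact isCycle_of_lists [0, 7, 3, 4, 5, 6, 2, 1] [5, 9, 2, 11, 3, 8, 0, 10] (by decide) (by decide) (by decide) (by decide) (by decide +kernel)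

theorem cycle_of_mem : ∀ n ∈ CL, IsCycle ladder (S n) := by
  intro n hn
  simp only [CL, List.mem_cons, List.not_mem_nil, or_false] at hn
  rcases hn with rfl | rfl | rfl | rfl | rfl | rfl | rfl | rfl | rfl | rfl | rfl | rfl | rfl | rfl | rfl | rfl | rfl | rfl | rfl | rfl | rfl | rfl | rfl | rfl | rfl | rfl | rfl | rfl | rfl
  · exact cyc255
  · exact cyc374
  · exact cyc393
  · exact cyc612
  · exact cyc667
  · exact cyc786
  · exact cyc1095
  · exact cyc1208
  · exact cyc1329
  · exact cyc1486
  · exact cyc1571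
  · exact cyc1756
  · exact cyc1877
  · exact cyc1962
  · exact cyc2168
  · exact cyc2183
  · exact cyc2318
  · exact cyc2545
  · exact cyc2588
  · exact cyc2787
  · exact cyc2922
  · exact cyc2965
  · exact cyc3135
  · exact cyc3264
  · exact cyc3401
  · exact cyc3510
  · exact cyc3675
  · exact cyc3748
  · exact cyc3885

theorem ladder_loopless : ∀ x, ¬ (ladder x).IsDiag := by
  decide +kernel

/-- parity of the degrees -/
def evB (n : ℕ) : Bool :=
  !(n.testBit 5 ^^ n.testBit 6 ^^ n.testBit 10) && !(n.testBit 0 ^^ n.testBit 7 ^^ n.testBit 10) &&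
  !(n.testBit 0 ^^ n.testBit 1 ^^ n.testBit 8) && !(n.testBit 1 ^^ n.testBit 2 ^^ n.testBit 9) &&
  !(n.testBit 2 ^^ n.testBit 6 ^^ n.testBit 11) && !(n.testBit 3 ^^ n.testBit 7 ^^ n.testBit 11) &&
  !(n.testBit 3 ^^ n.testBit 4 ^^ n.testBit 8) && !(n.testBit 4 ^^ n.testBit 5 ^^ n.testBit 9)

theorem parity_aux {n : ℕ} {u : Fin 8} {a b c : Fin 12}
    (h : ∀ x, u ∈ ladder x ↔ x = a ∨ x = b ∨ x = c) (hab : a ≠ b) (hac : a ≠ c) (hbc : b ≠ c)
    (he : EvenSet ladder (S n)) :
    (n.testBit a.val ^^ n.testBit b.val ^^ n.testBit c.val) = false := by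
  have h1 := he u
  have h2 : (S n).filter (fun x => u ∈ ladder x) =
      ({a, b, c} : Finset (Fin 12)).filter (fun x => n.testBit x.val = true) := by
    ext x
    rw [Finset.mem_filter, Finset.mem_filter, mem_S, h]
    simp only [Finset.mem_insert, Finset.mem_singleton]
    tauto
  rw [h2] at h1
  rcases ha : n.testBit a.val <;> rcases hb : n.testBit b.val <;> rcases hc : n.testBit c.val <;>
    simp [Finset.filter_insert, Finset.filter_singleton, ha, hb, hc, hab, hac, hbc] at h1 ⊢ <;>
    revert h1 <;> decide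

theorem even_evB {n : ℕ} (he : EvenSet ladder (S n)) : evB n = true := by
  have h0 := parity_aux (u := 0) (a := 5) (b := 6) (c := 10) (by decide +kernel) (by decide)
    (by decide) (by decide) he
  have h1 := parity_aux (u := 1) (a := 0) (b := 7) (c := 10) (by decide +kernel) (by decide)
    (by decide) (by decide) he
  have h2 := parity_aux (u := 2) (a := 0) (b := 1) (c := 8) (by decide +kernel) (by decide)
    (by decide) (by decide) he
  have h3 := parity_aux (u := 3) (a := 1) (b := 2) (c := 9) (by decide +kernel) (by decide)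
    (by decide) (by decide) he
  have h4 := parity_aux (u := 4) (a := 2) (b := 6) (c := 11) (by decide +kernel) (by decide)
    (by decide) (by decide) he
  have h5 := parity_aux (u := 5) (a := 3) (b := 7) (c := 11) (by decide +kernel) (by decide)
    (by decide) (by decide) he
  have h6 := parity_aux (u := 6) (a := 3) (b := 4) (c := 8) (by decide +kernel) (by decide)
    (by decide) (by decide) he
  have h7 := parity_aux (u := 7) (a := 4) (b := 5) (c := 9) (by decide +kernel) (by decide)
    (by decide) (by decide) he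
  have e0 : (n.testBit 5 ^^ n.testBit 6 ^^ n.testBit 10) = false := h0
  have e1 : (n.testBit 0 ^^ n.testBit 7 ^^ n.testBit 10) = false := h1
  have e2 : (n.testBit 0 ^^ n.testBit 1 ^^ n.testBit 8) = false := h2
  have e3 : (n.testBit 1 ^^ n.testBit 2 ^^ n.testBit 9) = false := h3
  have e4 : (n.testBit 2 ^^ n.testBit 6 ^^ n.testBit 11) = false := h4
  have e5 : (n.testBit 3 ^^ n.testBit 7 ^^ n.testBit 11) = false := h5
  have e6 : (n.testBit 3 ^^ n.testBit 4 ^^ n.testBit 8) = false := h6
  have e7 : (n.testBit 4 ^^ n.testBit 5 ^^ n.testBit 9) = false := h7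
  unfold evB
  rw [e0, e1, e2, e3, e4, e5, e6, e7]
  rfl

def clsB (n : ℕ) : Bool :=
  !(evB n) || (n == 0) || CL.contains n || CL.any (fun y => (y &&& n == y) && (y != n))

theorem class_check' : ∀ a < 64, ∀ b < 64, clsB (64 * a + b) = true := by
  decide +kernel

theorem class_check : ∀ n < 4096, evB n = true → n ≠ 0 →
    CL.contains n = true ∨ CL.any (fun y => (y &&& n == y) && (y != n)) = true := by
  intro n hn h1 h2
  have h3 := class_check' (n / 64) (by omega) (n % 64) (by omega)
  rw [Nat.div_add_mod] at h3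
  unfold clsB at h3
  have h4 : (n == 0) = false := by simpa using h2
  rw [h1, h4] at h3
  simp only [Bool.not_true, Bool.false_or, Bool.or_eq_true] at h3
  exact h3

theorem mem_of_cycle {n : ℕ} (hn : n < 4096) (h : IsCycle ladder (S n)) : n ∈ CL := by
  obtain ⟨h1, h2, h3⟩ := h.even ladder_loopless
  have hne : n ≠ 0 := by
    rintro rfl
    obtain ⟨x, hx⟩ := h1
    rw [mem_S] at hx
    simp at hx
  rcases class_check n hn (even_evB h2) hne with h4 | h4
  · exact List.contains_iff_mem.1 h4
  · rw [List.any_eq_true] at h4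
    obtain ⟨y, hy, hy2⟩ := h4
    simp only [Bool.and_eq_true, beq_iff_eq, bne_iff_ne] at hy2
    have hyl := CL_lt y hy
    obtain ⟨h5, h6, _⟩ := (cycle_of_mem y hy).even ladder_loopless
    have := h3 (S y) ((S_subset hyl).2 hy2.1) h5 h6
    exact absurd (S_inj hyl hn this) hy2.2

end Pool.Agent.H482R3.SOS
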