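import Pool.Agent.H482R3.SOS.Final

set_option autoImplicit false

namespace Pool.Agent.H482R3.SOS

variable {V E : Type} [Fintype E] [DecidableEq E]

namespace LadderIn

variable {ends : E → Sym2 V} (L : LadderIn ends)

omit [Fintype E] [DecidableEq E] in
theorem T_zero : L.T 0 = ∅ := by
  unfold T
  rw [show S 0 = ∅ by decide +kernel, Finset.map_empty]

omit [Fintype E] in
theorem inA_lit (Z : Finset E) : InA true ends (L.ι 10) (L.ι 11) ∅ (L.T 199) Z ↔
    Z = L.T 3264 := by
  have huniq : ∀ Y : Finset E, IsCycle ends Y →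
      Y ⊆ insert (L.ι 10) (insert (L.ι 11) (L.T 199)) →
      insert (L.ι 10) (insert (L.ι 11) ∅) ⊆ Y → Y = L.T 3264 := by
    intro Y h1 h2 h3
    rw [← L.T_ef] at h2
    obtain ⟨y, hy, rfl⟩ := L.exists_T h2
    rw [L.T_subset hy] at h2
    rw [L.cycle_T hy] at h1
    rw [← L.T_zero, L.ef_subset (by norm_num)] at h3
    have h4 : ∀ z ∈ CL, z &&& (199 ||| 3072) = z → 3072 &&& z = 3072 → z = 3264 := by decide
    rw [h4 y h1 h2 h3.1]
  constructor
  · rintro ⟨_, _, _, h4, h5, h6, _⟩
    exact huniq Z h4 h6 h5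
  · rintro rfl
    refine ⟨L.e_notMem (by norm_num), L.f_notMem (by norm_num), ?_,
      (L.cycle_T (by norm_num)).2 (by decide), ?_, ?_, ?_⟩
    · rw [L.forest_T]
      decide +kernel
    · rw [← L.T_zero, L.ef_subset (by norm_num)]
      decide
    · rw [← L.T_ef, L.T_subset (by norm_num)]
      decide
    · intro Y h1 h2 h3
      exact huniq Y h1 h2 (h3 rfl)

theorem not_sos_true : ¬ IsSOS true ends (L.ι 10) (L.ι 11) := by
  classical
  intro h
  obtain ⟨c, hc, heq⟩ := sos_coeff h
  have h1 := heq (L.T 199) ∅ (Finset.disjoint_empty_right _)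
  rw [Finset.powerset_empty, Finset.sum_singleton, Finset.sum_singleton, Finset.sdiff_empty,
    Finset.powerset_empty, Finset.sum_singleton, Finset.sdiff_empty, Finset.union_empty,
    Finset.empty_union, Finset.union_empty] at h1
  have hInS : InS ends (L.ι 10) (L.ι 11) ∅ := by
    refine ⟨Finset.notMem_empty _, Finset.notMem_empty _, L.T 3264,
      (L.cycle_T (by norm_num)).2 (by decide), ?_⟩
    rw [← L.T_zero, L.ef_subset (by norm_num)]
    decide
  have f1 : ¬ IsForest ends (insert (L.ι 10) (L.T 199)) := by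
    rw [← L.T_e, L.forest_T]
    decide +kernel
  have f2 : ¬ IsForest ends (insert (L.ι 11) (insert (L.ι 10) (L.T 199))) := by
    rw [← L.T_fe, L.forest_T]
    decide +kernel
  rw [if_neg (fun h => f1 h.1.2), if_neg (fun h => f2 h.2.2.2), if_pos hInS] at h1
  simp only [L.inA_lit, Finset.sum_ite_eq', Finset.mem_univ, if_true] at h1
  rcases hc ∅ (L.T 3264) with h2 | h2 <;> rw [h2] at h1 <;> norm_num at h1

theorem not_sos (lit : Bool) : ¬ IsSOS lit ends (L.ι 10) (L.ι 11) := by
  rcases lit with _ | _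
  · exact L.not_sos_false
  · exact L.not_sos_true

end LadderIn

/-- the ladder in itself -/
def selfLadder : LadderIn ladder where
  κ := Function.Embedding.refl _
  ι := Function.Embedding.refl _
  comm := by
    intro i
    have : (⇑(Function.Embedding.refl (Fin 8)) : Fin 8 → Fin 8) = id := rfl
    rw [this, Sym2.map_id]
    rfl

theorem ladder_not_sos (lit : Bool) : ¬ IsSOS lit ladder 10 11 := selfLadder.not_sos lit

theorem ladder_not_diag : ∀ i, ¬ (ladder i).IsDiag := ladder_loopless

theorem ladder_injective : Function.Injective ladder := by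
  decide +kernel

/-- A simple graph as a graph with edge set `G.edgeSet`. -/
def simpleEnds {W : Type} (G : SimpleGraph W) : G.edgeSet → Sym2 W := Subtype.val

/-- a ladder in a simple graph -/
noncomputable def simpleLadder {W : Type} (G : SimpleGraph W) (κ : Fin 8 ↪ W)
    (h : ∀ i, (ladder i).map κ ∈ G.edgeSet) : LadderIn (simpleEnds G) where
  κ := κ
  ι := ⟨fun i => ⟨(ladder i).map κ, h i⟩, fun i j hij => by
    have h1 := congrArg Subtype.val hij
    simp only at h1
    exact ladder_injective (Sym2.map.injective κ.injective h1)⟩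
  comm := fun i => rfl

theorem complete_not_sos (lit : Bool) {n : ℕ} (hn : 8 ≤ n)
    [Fintype (⊤ : SimpleGraph (Fin n)).edgeSet] [DecidableEq (⊤ : SimpleGraph (Fin n)).edgeSet]
    (e f : (⊤ : SimpleGraph (Fin n)).edgeSet)
    (hef : ∀ v, v ∈ e.val → v ∉ f.val) :
    ¬ IsSOS lit (simpleEnds (⊤ : SimpleGraph (Fin n))) e f := by
  obtain ⟨e, he⟩ := e
  obtain ⟨f, hf⟩ := f
  induction e using Sym2.ind with | _ a b
  induction f using Sym2.ind with | _ c d
  simp only [SimpleGraph.mem_edgeSet, SimpleGraph.top_adj] at he hf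
  have hab : a ≠ b := he
  have hcd : c ≠ d := hf
  have h1 := hef a (by simp)
  have h2 := hef b (by simp)
  simp only [Sym2.mem_iff, not_or] at h1 h2
  have hx : Function.Injective (![Fin.castLE hn 0, Fin.castLE hn 1, Fin.castLE hn 4,
      Fin.castLE hn 5] : Fin 4 → Fin n) := by
    intro i j hij
    fin_cases i <;> fin_cases j <;> simp [Fin.ext_iff] at hij ⊢
  have hy : Function.Injective (![a, b, c, d] : Fin 4 → Fin n) := by
    intro i j hij
    fin_cases i <;> fin_cases j <;> simp_all
  obtain ⟨σ, hσ⟩ := Equiv.Perm.exists_extending_pair _ _ hx hy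
  have s0 : σ (Fin.castLE hn 0) = a := hσ 0
  have s1 : σ (Fin.castLE hn 1) = b := hσ 1
  have s2 : σ (Fin.castLE hn 4) = c := hσ 2
  have s3 : σ (Fin.castLE hn 5) = d := hσ 3
  let κ : Fin 8 ↪ Fin n := (Fin.castLEEmb hn).trans σ.toEmbedding
  have hκ : ∀ i, κ i = σ (Fin.castLE hn i) := fun i => rfl
  have hmem : ∀ i, (ladder i).map κ ∈ (⊤ : SimpleGraph (Fin n)).edgeSet := by
    intro i
    have h3 := ladder_loopless i
    revert h3
    induction ladder i using Sym2.ind with | _ p q
    intro h3
    rw [Sym2.mk_isDiag_iff] at h3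
    rw [Sym2.map_mk, SimpleGraph.mem_edgeSet, SimpleGraph.top_adj]
    exact fun h4 => h3 (κ.injective h4)
  have h5 := (simpleLadder _ κ hmem).not_sos lit
  have h6 : (simpleLadder _ κ hmem).ι 10 = ⟨s(a, b), he⟩ := by
    apply Subtype.ext
    change (ladder 10).map κ = s(a, b)
    rw [← s0, ← s1]
    rfl
  have h7 : (simpleLadder _ κ hmem).ι 11 = ⟨s(c, d), hf⟩ := by
    apply Subtype.ext
    change (ladder 11).map κ = s(c, d)
    rw [← s2, ← s3]
    rfl
  rw [h6, h7] at h5
  exact h5

end Pool.Agent.H482R3.SOS
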