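import Pool.Agent.H482R3.SOS.Comp

set_option autoImplicit false

namespace Pool.Agent.H482R3.SOS

variable {V E : Type} [Fintype E] [DecidableEq E]

theorem mem_subs {u x : ℕ} : x ∈ subs u ↔ x < 1024 ∧ x &&& u = x := by
  unfold subs
  rw [List.mem_filter, List.mem_range]
  constructor
  · rintro ⟨h1, h2⟩
    exact ⟨h1, Nat.eq_of_beq_eq_true h2⟩
  · rintro ⟨h1, h2⟩
    refine ⟨h1, ?_⟩
    have : Nat.land x u = x := h2
    rw [this]
    exact Nat.beq_refl x

theorem nodup_subs (u : ℕ) : (subs u).Nodup := List.nodup_range.filter _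

theorem or_lt {a b : ℕ} (ha : a < 1024) (hb : b < 1024) : a ||| b < 1024 :=
  Nat.or_lt_two_pow (n := 10) ha hb

theorem xor_lt {a b : ℕ} (ha : a < 1024) (hb : b < 1024) : a ^^^ b < 1024 :=
  Nat.xor_lt_two_pow (n := 10) ha hb

theorem sum_flatMap' {α β : Type*} (l : List α) (f : α → List β) (g : β → ℤ) :
    ((l.flatMap f).map g).sum = (l.map fun x => ((f x).map g).sum).sum := by
  induction l with
  | nil => rfl
  | cons a l ih => rw [List.flatMap_cons, List.map_append, List.sum_append, ih]; rfl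

theorem map_sum_congr {α : Type*} {l : List α} {f g : α → ℤ} (h : ∀ x ∈ l, f x = g x) :
    (l.map f).sum = (l.map g).sum := by
  rw [List.map_congr_left h]

namespace LadderIn

variable {ends : E → Sym2 V} (L : LadderIn ends)

omit [Fintype E] in
theorem sum_powerset_T {u : ℕ} (hu : u < 1024) (F : Finset E → ℤ) :
    ∑ X ∈ (L.T u).powerset, F X = ((subs u).map fun x => F (L.T x)).sum := by
  have h1 : (L.T u).powerset = (subs u).toFinset.image L.T := by
    ext X
    rw [Finset.mem_powerset, Finset.mem_image]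
    constructor
    · intro h
      obtain ⟨z, hz, rfl⟩ := L.exists_T h
      rw [L.T_subset hz] at h
      refine ⟨z, ?_, rfl⟩
      rw [List.mem_toFinset, mem_subs]
      refine ⟨?_, h⟩
      rw [← h]
      exact lt_of_le_of_lt Nat.and_le_right hu
    · rintro ⟨x, hx, rfl⟩
      rw [List.mem_toFinset, mem_subs] at hx
      exact (L.T_subset (by omega)).2 hx.2
  rw [h1, Finset.sum_image, List.sum_toFinset _ (nodup_subs u)]
  intro x hx y hy hxy
  rw [Finset.mem_coe, List.mem_toFinset, mem_subs] at hx hy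
  exact L.T_inj (by omega) (by omega) hxy

omit [Fintype E] in
theorem ef_subset {s z : ℕ} (hs : s < 1024) :
    insert (L.ι 10) (insert (L.ι 11) (L.T s)) ⊆ L.T z ↔ 3072 &&& z = 3072 ∧ s &&& z = s := by
  have h1 : insert (L.ι 10) (insert (L.ι 11) (L.T s)) = L.T 3072 ∪ L.T s := by
    rw [← L.T_ef, L.T_or, Finset.union_comm]
  rw [h1, Finset.union_subset_iff, L.T_subset (by norm_num), L.T_subset (by omega)]

theorem inA_T {s a : ℕ} (hs : s < 1024) (ha : a < 1024) (Z : Finset E) :
    InA false ends (L.ι 10) (L.ι 11) (L.T s) (L.T a) Z ↔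
      ∃ z, (cyv a = z ∧ z ≠ 0) ∧ s &&& z = s ∧ L.T z = Z := by
  constructor
  · rintro ⟨_, _, hfor, hcyc, hsub, hZ, huniq⟩
    rw [← L.T_ef] at hZ
    obtain ⟨z, hz, rfl⟩ := L.exists_T hZ
    rw [L.ef_subset hs] at hsub
    rw [L.T_subset hz] at hZ
    rw [L.cycle_T hz] at hcyc
    refine ⟨z, ?_, hsub.2, rfl⟩
    rw [cyv_spec]
    refine ⟨hcyc, hZ, hsub.1, ?_⟩
    intro y hy hy2
    have hyl := CL_lt y hy
    apply L.T_inj hyl hz
    apply huniq _ ((L.cycle_T hyl).2 hy)
    · rw [← L.T_ef, L.T_subset hyl]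
      exact hy2
    · intro h
      exact absurd h (by decide)
  · rintro ⟨z, hz, hsz, rfl⟩
    rw [cyv_spec] at hz
    obtain ⟨h1, h2, h3, h4⟩ := hz
    have hzl := CL_lt z h1
    refine ⟨L.e_notMem ha, L.f_notMem ha, ?_, (L.cycle_T hzl).2 h1, (L.ef_subset hs).2 ⟨h3, hsz⟩,
      ?_, ?_⟩
    · intro Y hY hcyc
      obtain ⟨y, hy, rfl⟩ := L.exists_T hY
      rw [L.T_subset hy] at hY
      rw [L.cycle_T hy] at hcyc
      have h5 : y = z := by
        apply h4 y hcyc
        rw [Nat.and_or_distrib_left, hY]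
        apply Nat.eq_of_testBit_eq
        intro i
        rw [Nat.testBit_or, Nat.testBit_and]
        rcases y.testBit i <;> simp
      subst h5
      have h6 : y < 1024 := by
        rw [← hY]
        exact lt_of_le_of_lt Nat.and_le_right ha
      have h7 : y &&& 3072 ≤ y := Nat.and_le_left
      rw [Nat.and_comm, h3] at h7
      omega
    · rw [← L.T_ef, L.T_subset hzl]
      exact h2
    · intro Y hcyc hY _
      rw [← L.T_ef] at hY
      obtain ⟨y, hy, rfl⟩ := L.exists_T hY
      rw [L.T_subset hy] at hY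
      rw [L.cycle_T hy] at hcyc
      rw [h4 y hcyc hY]

/-- the signs in terms of the codes -/
def sg (c : Finset E → Finset E → ℤ) (s z : ℕ) : ℤ := c (L.T s) (L.T z)

open Classical in
theorem hh_eq (c : Finset E → Finset E → ℤ) {s a : ℕ} (hs : s < 1024) (ha : a < 1024) :
    (∑ Z, if InA false ends (L.ι 10) (L.ι 11) (L.T s) (L.T a) Z then c (L.T s) Z else 0) =
      hh (L.sg c) s a := by
  by_cases h : ∃ z, (cyv a = z ∧ z ≠ 0) ∧ s &&& z = s
  · obtain ⟨z, ⟨hz, hz0⟩, hsz⟩ := h
    have h1 : ∀ Z, InA false ends (L.ι 10) (L.ι 11) (L.T s) (L.T a) Z ↔ L.T z = Z := by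
      intro Z
      rw [L.inA_T hs ha]
      constructor
      · rintro ⟨w, ⟨hw, _⟩, _, rfl⟩
        rw [← hz, ← hw]
      · intro h
        exact ⟨z, ⟨hz, hz0⟩, hsz, h⟩
    simp only [h1]
    rw [Finset.sum_ite_eq, if_pos (Finset.mem_univ _)]
    unfold hh
    rw [hz]
    have h2 : Nat.beq z 0 = false := by
      rcases h3 : Nat.beq z 0 with _ | _
      · rfl
      · exact absurd (Nat.eq_of_beq_eq_true h3) hz0
    have h3 : Nat.land s z = s := hsz
    rw [h2, h3, Nat.beq_refl]
    rfl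
  · have h1 : ∀ Z, ¬ InA false ends (L.ι 10) (L.ι 11) (L.T s) (L.T a) Z := by
      intro Z hZ
      rw [L.inA_T hs ha] at hZ
      obtain ⟨z, h2, h3, _⟩ := hZ
      exact h ⟨z, h2, h3⟩
    simp only [h1, if_false, Finset.sum_const_zero]
    unfold hh
    rcases h2 : Nat.beq (cyv a) 0 with _ | _
    · rcases h3 : Nat.beq (Nat.land s (cyv a)) s with _ | _
      · rfl
      · exfalso
        apply h
        refine ⟨cyv a, ⟨rfl, ?_⟩, Nat.eq_of_beq_eq_true h3⟩
        intro h4
        rw [h4] at h2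
        exact absurd h2 (by decide)
    · rfl

omit [Fintype E] [DecidableEq E] in
theorem hh_mul (C : ℕ → ℕ → ℤ) {s a b : ℕ} (ha : a < 1024) (hb : b < 1024) :
    hh C s a * hh C s b = ((trm s a b).map fun t => C t.1 t.2.1 * C t.1 t.2.2).sum := by
  unfold hh trm
  rw [gv_eq ha, gv_eq hb]
  rcases Nat.beq (cyv a) 0 <;> rcases Nat.beq (cyv b) 0 <;>
    rcases Nat.beq (Nat.land s (cyv a)) s <;> rcases Nat.beq (Nat.land s (cyv b)) s <;> simp

omit [Fintype E] [DecidableEq E] in
theorem hh_zero (C : ℕ → ℕ → ℤ) {s a : ℕ} (h : inSB s = false) : hh C s a = 0 := by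
  unfold hh
  rcases h2 : Nat.beq (cyv a) 0 with _ | _
  · rcases h3 : Nat.beq (Nat.land s (cyv a)) s with _ | _
    · rfl
    · exfalso
      have h4 : cyv a ≠ 0 := by
        intro h4
        rw [h4] at h2
        exact absurd h2 (by decide)
      obtain ⟨h5, h6, h7, h8⟩ := (cyv_spec a (cyv a)).1 ⟨rfl, h4⟩
      have h9 : inSB s = true := by
        unfold inSB
        rw [List.any_eq_true]
        refine ⟨cyv a, h5, ?_⟩
        have h10 : Nat.land (Nat.lor s 3072) (cyv a) = Nat.lor s 3072 := by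
          change (s ||| 3072) &&& cyv a = s ||| 3072
          have h11 : s &&& cyv a = s := Nat.eq_of_beq_eq_true h3
          rw [Nat.and_or_distrib_right, h7, h11]
        rw [h10]
        exact Nat.beq_refl _
      rw [h] at h9
      exact absurd h9 (by decide)
  · rfl

open Classical in
theorem rhs_eq (c : Finset E → Finset E → ℤ) {d u : ℕ} (hd : d < 1024) (hu : u < 1024) :
    (∑ S ∈ (L.T u).powerset, if InS ends (L.ι 10) (L.ι 11) S then
        ∑ X ∈ ((L.T u) \ S).powerset,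
          (∑ Z, if InA false ends (L.ι 10) (L.ι 11) S (S ∪ L.T d ∪ X) Z then c S Z else 0) *
          (∑ Z, if InA false ends (L.ι 10) (L.ι 11) S (S ∪ L.T d ∪ (((L.T u) \ S) \ X)) Z
            then c S Z else 0) else 0) =
      ((terms d u).map fun t => L.sg c t.1 t.2.1 * L.sg c t.1 t.2.2).sum := by
  rw [L.sum_powerset_T hu]
  unfold terms
  rw [sum_flatMap']
  apply map_sum_congr
  intro s hs
  rw [mem_subs] at hs
  have h1 : ∀ X : Finset E, ¬ InS ends (L.ι 10) (L.ι 11) (L.T s) →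
      (∑ Z, if InA false ends (L.ι 10) (L.ι 11) (L.T s) X Z then c (L.T s) Z else 0) = 0 := by
    intro X hX
    apply Finset.sum_eq_zero
    intro Z _
    rw [if_neg]
    rintro ⟨_, _, _, h5, h6, _⟩
    exact hX ⟨L.e_notMem hs.1, L.f_notMem hs.1, Z, h5, h6⟩
  have h2 : (if InS ends (L.ι 10) (L.ι 11) (L.T s) then
        ∑ X ∈ ((L.T u) \ (L.T s)).powerset,
          (∑ Z, if InA false ends (L.ι 10) (L.ι 11) (L.T s) (L.T s ∪ L.T d ∪ X) Z
            then c (L.T s) Z else 0) *
          (∑ Z, if InA false ends (L.ι 10) (L.ι 11) (L.T s)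
            (L.T s ∪ L.T d ∪ (((L.T u) \ (L.T s)) \ X)) Z
            then c (L.T s) Z else 0) else 0) =
        ∑ X ∈ ((L.T u) \ (L.T s)).powerset,
          (∑ Z, if InA false ends (L.ι 10) (L.ι 11) (L.T s) (L.T s ∪ L.T d ∪ X) Z
            then c (L.T s) Z else 0) *
          (∑ Z, if InA false ends (L.ι 10) (L.ι 11) (L.T s)
            (L.T s ∪ L.T d ∪ (((L.T u) \ (L.T s)) \ X)) Z
            then c (L.T s) Z else 0) := by
    by_cases hS : InS ends (L.ι 10) (L.ι 11) (L.T s)
    · rw [if_pos hS]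
    · rw [if_neg hS]
      symm
      apply Finset.sum_eq_zero
      intro X _
      rw [h1 _ hS, zero_mul]
  rw [h2, ← L.T_xor hs.2]
  have hus : u ^^^ s < 1024 := xor_lt hu hs.1
  rw [L.sum_powerset_T hus]
  have h3 : ∀ x ∈ subs (u ^^^ s),
      (∑ Z, if InA false ends (L.ι 10) (L.ι 11) (L.T s) (L.T s ∪ L.T d ∪ L.T x) Z
            then c (L.T s) Z else 0) *
          (∑ Z, if InA false ends (L.ι 10) (L.ι 11) (L.T s)
            (L.T s ∪ L.T d ∪ (L.T (u ^^^ s) \ L.T x)) Z
            then c (L.T s) Z else 0) =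
      hh (L.sg c) s (s ||| d ||| x) * hh (L.sg c) s (s ||| d ||| (u ^^^ s ^^^ x)) := by
    intro x hx
    rw [mem_subs] at hx
    rw [← L.T_xor hx.2, ← L.T_or, ← L.T_or, ← L.T_or]
    rw [L.hh_eq c hs.1 (or_lt (or_lt hs.1 hd) hx.1),
      L.hh_eq c hs.1 (or_lt (or_lt hs.1 hd) (xor_lt hus hx.1))]
  rw [map_sum_congr h3]
  rcases h4 : inSB s with _ | _
  · simp only [cond_false, List.map_nil, List.sum_nil]
    apply List.sum_eq_zero
    intro y hy
    rw [List.mem_map] at hy
    obtain ⟨x, _, rfl⟩ := hy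
    rw [hh_zero _ h4, zero_mul]
  · simp only [cond_true]
    rw [sum_flatMap']
    apply map_sum_congr
    intro x hx
    rw [mem_subs] at hx
    rw [hh_mul _ (or_lt (or_lt hs.1 hd) hx.1) (or_lt (or_lt hs.1 hd) (xor_lt hus hx.1))]
    rfl

end LadderIn

end Pool.Agent.H482R3.SOS
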