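import Pool.Agent.H482R3.SOS.Main

set_option autoImplicit false

namespace Pool.Agent.H482R3.SOS

/-! Numerical values, computed by the kernel. -/

theorem lhs_9_630 : lhs 9 630 = -2 := by decide +kernel

theorem terms_9_630 : terms 9 630 =
    [(18, 3135, 3675), (18, 3675, 3135)] := by
  decide +kernel

theorem lhs_3_252 : lhs 3 252 = -2 := by decide +kernel

theorem terms_3_252 : terms 3 252 =
    [(0, 3135, 3264), (0, 3264, 3135)] := by
  decide +kernel

theorem lhs_12_752 : lhs 12 752 = 2 := by decide +kernel

theorem terms_12_752 : terms 12 752 =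
    [(128, 3264, 3748), (128, 3748, 3264)] := by
  decide +kernel

theorem lhs_11_372 : lhs 11 372 = -2 := by decide +kernel

theorem terms_11_372 : terms 11 372 =
    [(0, 3135, 3401), (0, 3401, 3135)] := by
  decide +kernel

theorem lhs_36_411 : lhs 36 411 = -2 := by decide +kernel

theorem terms_36_411 : terms 36 411 =
    [(18, 3135, 3510), (18, 3510, 3135)] := by
  decide +kernel

theorem lhs_27_704 : lhs 27 704 = 2 := by decide +kernel

theorem terms_27_704 : terms 27 704 =
    [(64, 3264, 3675), (64, 3675, 3264)] := by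
  decide +kernel

theorem lhs_9_448 : lhs 9 448 = 2 := by decide +kernel

theorem terms_9_448 : terms 9 448 =
    [(64, 3264, 3401), (64, 3401, 3264)] := by
  decide +kernel

theorem lhs_45_786 : lhs 45 786 = -2 := by decide +kernel

theorem terms_45_786 : terms 45 786 =
    [(0, 3135, 3885), (0, 3885, 3135)] := by
  decide +kernel

theorem lhs_22_488 : lhs 22 488 = 2 := by decide +kernel

theorem terms_22_488 : terms 22 488 =
    [(128, 3264, 3510), (128, 3510, 3264)] := by
  decide +kernel

theorem lhs_37_666 : lhs 37 666 = -2 := by decide +kernel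

theorem terms_37_666 : terms 37 666 =
    [(0, 3135, 3748), (0, 3748, 3135)] := by
  decide +kernel

theorem lhs_18_493 : lhs 18 493 = 0 := by decide +kernel

theorem terms_18_493 : terms 18 493 =
    [(0, 3135, 3264), (0, 3264, 3135), (64, 3264, 3401), (64, 3401, 3264), (128, 3264, 3510),
    (128, 3510, 3264), (256, 3401, 3510), (256, 3510, 3401)] := by
  decide +kernel

theorem lhs_9_758 : lhs 9 758 = 0 := by decide +kernel

theorem terms_9_758 : terms 9 758 =
    [(0, 3135, 3264), (0, 3264, 3135), (64, 3264, 3675), (64, 3675, 3264), (128, 3264, 3748),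
    (128, 3748, 3264), (512, 3675, 3748), (512, 3748, 3675)] := by
  decide +kernel

theorem lhs_0_1023 : lhs 0 1023 = 74 := by decide +kernel

theorem terms_0_1023 : terms 0 1023 =
    [(0, 3135, 3264), (0, 3264, 3885), (0, 3401, 3748), (0, 3401, 3748), (0, 3401, 3748), (0,
    3401, 3748), (0, 3748, 3401), (0, 3748, 3401), (0, 3748, 3401), (0, 3748, 3401), (0, 3885,
    3264), (0, 3264, 3135), (18, 3510, 3675), (18, 3675, 3510), (64, 3264, 3401), (64, 3264,
    3401), (64, 3264, 3401), (64, 3264, 3401), (64, 3264, 3401), (64, 3401, 3264), (64, 3401,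
    3264), (64, 3401, 3264), (64, 3401, 3264), (64, 3401, 3264), (64, 3264, 3675), (64, 3675,
    3264), (64, 3264, 3401), (64, 3264, 3401), (64, 3264, 3401), (64, 3264, 3401), (64, 3264,
    3401), (64, 3401, 3264), (64, 3401, 3264), (64, 3401, 3264), (64, 3401, 3264), (64, 3401,
    3264), (128, 3264, 3748), (128, 3264, 3748), (128, 3264, 3748), (128, 3264, 3748), (128, 3264,
    3748), (128, 3510, 3264), (128, 3264, 3748), (128, 3264, 3748), (128, 3264, 3748), (128, 3264,
    3748), (128, 3264, 3748), (128, 3748, 3264), (128, 3748, 3264), (128, 3748, 3264), (128, 3748,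
    3264), (128, 3748, 3264), (128, 3264, 3510), (128, 3748, 3264), (128, 3748, 3264), (128, 3748,
    3264), (128, 3748, 3264), (128, 3748, 3264), (192, 3264, 3264), (192, 3264, 3264), (192, 3264,
    3264), (192, 3264, 3264), (192, 3264, 3264), (192, 3264, 3264), (192, 3264, 3264), (192, 3264,
    3264), (192, 3264, 3264), (192, 3264, 3264), (192, 3264, 3264), (192, 3264, 3264), (192, 3264,
    3264), (192, 3264, 3264), (192, 3264, 3264), (192, 3264, 3264), (192, 3264, 3264), (192, 3264,
    3264), (192, 3264, 3264), (192, 3264, 3264), (192, 3264, 3264), (192, 3264, 3264), (192, 3264,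
    3264), (192, 3264, 3264), (192, 3264, 3264), (192, 3264, 3264), (192, 3264, 3264), (192, 3264,
    3264), (256, 3510, 3401), (256, 3401, 3510), (512, 3675, 3748), (512, 3748, 3675)] := by
  decide +kernel

end Pool.Agent.H482R3.SOS
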